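import Pool.Agent.Work.MP_0f1017_co.Defs

/-!
Shellable complexes are constructible.
-/

namespace Pool.Agent.CURep

variable {V : Type}

theorem constructible_part [DecidableEq V] (n : ℕ) :
    ∀ (F X : Finset V), F.card = n + 1 → X.Nonempty → X ⊆ F →
      Constructible n {σ : Finset V | ∃ x ∈ X, σ ⊆ F.erase x} := by
  induction n with
  | zero =>
    intro F X hF hX hXF
    obtain ⟨a, rfl⟩ := Finset.card_eq_one.1 (by simpa using hF)
    have hXa : X = {a} := (Finset.subset_singleton_iff.1 hXF).resolve_left hX.ne_empty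
    subst hXa
    have h := Constructible.simplex (V := V) (∅ : Finset V)
    have he : {σ : Finset V | ∃ x ∈ ({a} : Finset V), σ ⊆ ({a} : Finset V).erase x} =
        {σ : Finset V | σ ⊆ (∅ : Finset V)} := by
      ext σ
      simp
    rw [he]
    simpa using h
  | succ m ihn =>
    intro F X hF hX
    induction hX using Finset.Nonempty.cons_induction with
    | singleton x =>
      intro hXF
      have hx : x ∈ F := hXF (Finset.mem_singleton_self x)
      have h := Constructible.simplex (V := V) (F.erase x)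
      rw [Finset.card_erase_of_mem hx, hF, Nat.add_sub_cancel] at h
      have he : {σ : Finset V | ∃ y ∈ ({x} : Finset V), σ ⊆ F.erase y} =
          {σ : Finset V | σ ⊆ F.erase x} := by
        ext σ
        simp
      rw [he]
      exact h
    | cons x X' hx hX' ih =>
      intro hXF
      have hxF : x ∈ F := hXF (Finset.mem_cons_self x X')
      have hX'F : X' ⊆ F := fun y hy => hXF (Finset.mem_cons_of_mem hy)
      have h1 := ih hX'F
      have h2 := Constructible.simplex (V := V) (F.erase x)
      rw [Finset.card_erase_of_mem hxF, hF, Nat.add_sub_cancel] at h2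
      have hc : (F.erase x).card = m + 1 := by
        rw [Finset.card_erase_of_mem hxF, hF, Nat.add_sub_cancel]
      have h3 := ihn (F.erase x) X' hc hX' (fun y hy => Finset.mem_erase.2
        ⟨fun h => hx (h ▸ hy), hX'F hy⟩)
      have hI : {σ : Finset V | ∃ y ∈ X', σ ⊆ F.erase y} ∩ {σ : Finset V | σ ⊆ F.erase x} =
          {σ : Finset V | ∃ y ∈ X', σ ⊆ (F.erase x).erase y} := by
        ext σ
        constructor
        · rintro ⟨⟨y, hy, hσ⟩, hσ'⟩
          refine ⟨y, hy, fun z hz => ?_⟩
          have := hσ hz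
          exact Finset.mem_erase.2 ⟨(Finset.mem_erase.1 this).1, hσ' hz⟩
        · rintro ⟨y, hy, hσ⟩
          refine ⟨⟨y, hy, fun z hz => ?_⟩, fun z hz => ?_⟩
          · have := Finset.mem_erase.1 (hσ hz)
            exact Finset.mem_erase.2 ⟨this.1, (Finset.mem_erase.1 this.2).2⟩
          · exact (Finset.mem_erase.1 (hσ hz)).2
      have hU : {σ : Finset V | ∃ y ∈ Finset.cons x X' hx, σ ⊆ F.erase y} =
          {σ : Finset V | ∃ y ∈ X', σ ⊆ F.erase y} ∪ {σ : Finset V | σ ⊆ F.erase x} := by
        ext σ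
        simp only [Finset.mem_cons, Set.mem_ofPred_eq, Set.mem_union]
        constructor
        · rintro ⟨y, rfl | hy, hσ⟩
          · exact Or.inr hσ
          · exact Or.inl ⟨y, hy, hσ⟩
        · rintro (⟨y, hy, hσ⟩ | hσ)
          · exact ⟨y, Or.inr hy, hσ⟩
          · exact ⟨x, Or.inl rfl, hσ⟩
      rw [hU]
      refine Constructible.union m _ _ h1 h2 ?_
      rw [hI]
      exact h3

/-- In a finite ground set every face lies in a facet. -/
theorem exists_facet [Finite V] {Δ : Set (Finset V)} {σ : Finset V} (h : σ ∈ Δ) :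
    ∃ F, IsFacet Δ F ∧ σ ⊆ F := by
  classical
  have := Fintype.ofFinite V
  obtain ⟨F, hσF, hF⟩ := (Set.toFinite Δ).exists_le_maximal h
  exact ⟨F, ⟨hF.1, fun G hG hFG => le_antisymm (hF.2 hG hFG) hFG⟩, hσF⟩

theorem Shellable.constructible {V : Type} [Fintype V] [DecidableEq V] {k : ℕ}
    {Δ : Set (Finset V)} (hc : IsComplex Δ) (h : Shellable k Δ) : Constructible (k + 1) Δ := by
  obtain ⟨⟨⟨F₀, hF₀⟩, hcard⟩, L, -, hmem, hL⟩ := h
  have hcL : ∀ (i : ℕ) (hi : i < L.length), (L[i]).card = k + 1 := fun i hi =>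
    hcard _ ((hmem _).1 (List.getElem_mem hi))
  have hpos : 0 < L.length := List.length_pos_of_mem ((hmem F₀).2 hF₀)
  have key : ∀ j : ℕ, 0 < j → j ≤ L.length →
      Constructible (k + 1) {σ : Finset V | ∃ (i : ℕ) (hi : i < L.length), i < j ∧ σ ⊆ L[i]} := by
    intro j
    induction j with
    | zero => intro h0; exact absurd h0 (lt_irrefl 0)
    | succ j ih =>
      intro _ hj
      have hjL : j < L.length := hj
      have hsx := Constructible.simplex (V := V) (L[j])
      rw [hcL j hjL] at hsx
      rcases Nat.eq_zero_or_pos j with h0 | h0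
      · subst h0
        have he : {σ : Finset V | ∃ (i : ℕ) (hi : i < L.length), i < 0 + 1 ∧ σ ⊆ L[i]} =
            {σ : Finset V | σ ⊆ L[0]} := by
          ext σ
          constructor
          · rintro ⟨i, hi, hi1, hσ⟩
            have : i = 0 := by omega
            subst this
            exact hσ
          · intro hσ
            exact ⟨0, hjL, by omega, hσ⟩
        rw [he]
        exact hsx
      · have hD := ih h0 hjL.le
        have hU : {σ : Finset V | ∃ (i : ℕ) (hi : i < L.length), i < j + 1 ∧ σ ⊆ L[i]} =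
            {σ : Finset V | ∃ (i : ℕ) (hi : i < L.length), i < j ∧ σ ⊆ L[i]} ∪
              {σ : Finset V | σ ⊆ L[j]} := by
          ext σ
          constructor
          · rintro ⟨i, hi, hi1, hσ⟩
            rcases Nat.lt_succ_iff_lt_or_eq.1 hi1 with h | h
            · exact Or.inl ⟨i, hi, h, hσ⟩
            · subst h
              exact Or.inr hσ
          · rintro (⟨i, hi, hi1, hσ⟩ | hσ)
            · exact ⟨i, hi, Nat.lt_succ_of_lt hi1, hσ⟩
            · exact ⟨j, hjL, Nat.lt_succ_self j, hσ⟩
        rw [hU]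
        refine Constructible.union k _ _ hD hsx ?_
        obtain ⟨⟨G₀, hG₀⟩, hpure⟩ := hL j hjL h0
        set S : Set (Finset V) := {σ : Finset V | σ ⊆ L[j] ∧ ∃ (i : ℕ) (hi : i < j), σ ⊆ L[i]}
          with hS
        have hSdown : ∀ σ ∈ S, ∀ τ : Finset V, τ ⊆ σ → τ ∈ S := by
          rintro σ ⟨hσ, i, hi, hσi⟩ τ hτ
          exact ⟨hτ.trans hσ, i, hi, hτ.trans hσi⟩
        have hI : {σ : Finset V | ∃ (i : ℕ) (hi : i < L.length), i < j ∧ σ ⊆ L[i]} ∩
            {σ : Finset V | σ ⊆ L[j]} = S := by
          ext σ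
          constructor
          · rintro ⟨⟨i, hi, hi1, hσ⟩, hσ'⟩
            exact ⟨hσ', i, hi1, hσ⟩
          · rintro ⟨hσ', i, hi1, hσ⟩
            exact ⟨⟨i, hi1.trans hjL, hi1, hσ⟩, hσ'⟩
        rw [hI]
        have herase : ∀ G, IsFacet S G → ∃ x ∈ L[j], G = (L[j]).erase x := by
          intro G hG
          have h1 : G.card = k := hpure G hG
          have h2 : G ⊆ L[j] := hG.1.1
          have h3 : (L[j] \ G).card = 1 := by
            rw [Finset.card_sdiff_of_subset h2, hcL j hjL, h1]
            omega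
          obtain ⟨x, hx⟩ := Finset.card_eq_one.1 h3
          have hxm : x ∈ L[j] \ G := by rw [hx]; exact Finset.mem_singleton_self x
          refine ⟨x, (Finset.mem_sdiff.1 hxm).1, ?_⟩
          rw [Finset.erase_eq, ← hx, Finset.sdiff_sdiff_eq_self h2]
        set X : Finset V := (L[j]).filter (fun x => (L[j]).erase x ∈ S) with hX
        have hXmem : ∀ x, x ∈ X ↔ x ∈ L[j] ∧ (L[j]).erase x ∈ S := fun x => by
          rw [hX, Finset.mem_filter]
        have hSX : S = {σ : Finset V | ∃ x ∈ X, σ ⊆ (L[j]).erase x} := by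
          ext σ
          constructor
          · intro hσ
            obtain ⟨G, hG, hσG⟩ := exists_facet hσ
            obtain ⟨x, hx, rfl⟩ := herase G hG
            exact ⟨x, (hXmem x).2 ⟨hx, hG.1⟩, hσG⟩
          · rintro ⟨x, hx, hσ⟩
            exact hSdown _ ((hXmem x).1 hx).2 σ hσ
        rw [hSX]
        refine constructible_part k (L[j]) X (hcL j hjL) ?_ (Finset.filter_subset _ _)
        obtain ⟨x, hx, hxG⟩ := herase G₀ hG₀
        exact ⟨x, (hXmem x).2 ⟨hx, hxG ▸ hG₀.1⟩⟩
  have hfin := key L.length hpos le_rfl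
  have he : {σ : Finset V | ∃ (i : ℕ) (hi : i < L.length), i < L.length ∧ σ ⊆ L[i]} = Δ := by
    ext σ
    constructor
    · rintro ⟨i, hi, -, hσ⟩
      exact hc _ ((hmem _).1 (List.getElem_mem hi)).1 σ hσ
    · intro hσ
      obtain ⟨G, hG, hσG⟩ := exists_facet hσ
      obtain ⟨i, hi, rfl⟩ := List.mem_iff_getElem.1 ((hmem G).2 hG)
      exact ⟨i, hi, hi, hσG⟩
  rw [← he]
  exact hfin

end Pool.Agent.CURep
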