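import Mathlib

/-!
Definitions for MP_0f1017_co: simplicial complexes as families of finite subsets of a finite
ground set, geometric realizations, balls, shellability, constructibility and convex union
representability.
-/

namespace Pool.Agent.CURep

variable {V : Type}

/-- A simplicial complex on the ground set `V`: a family of finite subsets of `V` closed under
taking subsets. -/
def IsComplex (Δ : Set (Finset V)) : Prop :=
  ∀ σ ∈ Δ, ∀ τ : Finset V, τ ⊆ σ → τ ∈ Δ

/-- Facets are the inclusion-maximal faces. -/
def IsFacet (Δ : Set (Finset V)) (F : Finset V) : Prop :=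
  F ∈ Δ ∧ ∀ G ∈ Δ, F ⊆ G → G = F

/-- Pure, all facets having exactly `m` elements (that is, dimension `m - 1`). -/
def IsPure (m : ℕ) (Δ : Set (Finset V)) : Prop :=
  (∃ F, IsFacet Δ F) ∧ ∀ F, IsFacet Δ F → F.card = m

/-- A `k`-dimensional complex is shellable: it is pure of dimension `k` and its facets can be
listed without repetition so that for each `j ≥ 1` (counting from `0`) the intersection of the
simplex on the `j`-th facet with the subcomplex generated by the earlier facets is pure of
dimension `k - 1`. -/
def Shellable (k : ℕ) (Δ : Set (Finset V)) : Prop :=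
  IsPure (k + 1) Δ ∧ ∃ L : List (Finset V), L.Nodup ∧ (∀ F, F ∈ L ↔ IsFacet Δ F) ∧
    ∀ (j : ℕ) (hj : j < L.length), 0 < j →
      IsPure k {σ : Finset V | σ ⊆ L[j] ∧ ∃ (i : ℕ) (hi : i < j), σ ⊆ L[i]}

/-- Constructible complexes, indexed by `m = dimension + 1`: every simplex is constructible, and
a union of two constructible complexes of the same dimension whose intersection is constructible
of dimension one less is constructible. -/
inductive Constructible : ℕ → Set (Finset V) → Prop
  | simplex (F : Finset V) : Constructible F.card {σ | σ ⊆ F}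
  | union (m : ℕ) (A B : Set (Finset V)) (hA : Constructible (m + 1) A)
      (hB : Constructible (m + 1) B) (hAB : Constructible m (A ∩ B)) :
      Constructible (m + 1) (A ∪ B)

/-- The geometric realization of a complex on a finite ground set `V`: the points of the standard
simplex of `V → ℝ` that are supported in a face. -/
def realization [Fintype V] (Δ : Set (Finset V)) : Set (V → ℝ) :=
  {x | (∀ i, 0 ≤ x i) ∧ ∑ i, x i = 1 ∧ ∃ σ ∈ Δ, ∀ i, i ∉ σ → x i = 0}

/-- A simplicial `k`-ball: a simplicial complex whose geometric realization is homeomorphic to the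
closed unit ball of `ℝ^k`. -/
def IsSimplicialBall [Fintype V] (k : ℕ) (Δ : Set (Finset V)) : Prop :=
  IsComplex Δ ∧
    Nonempty (realization Δ ≃ₜ Metric.closedBall (0 : EuclideanSpace ℝ (Fin k)) 1)

/-- `U_σ = ⋂_{i ∈ σ} U_i` for nonempty `σ`, and `U_∅` is the convex hull of the union. -/
def nerveSet {E : Type*} [AddCommGroup E] [Module ℝ E] (U : V → Set E) (σ : Finset V) : Set E :=
  {x | (σ = ∅ → x ∈ convexHull ℝ (⋃ i, U i)) ∧ (σ ≠ ∅ → ∀ i ∈ σ, x ∈ U i)}

/-- `Δ` is convex union representable: it is the nerve of a family, indexed by the ground set, of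
convex open subsets of some `ℝ^d` (the empty set is allowed) whose union is convex. -/
def ConvexUnionRepresentable (Δ : Set (Finset V)) : Prop :=
  ∃ (d : ℕ) (U : V → Set (EuclideanSpace ℝ (Fin d))),
    (∀ i, IsOpen (U i)) ∧ (∀ i, Convex ℝ (U i)) ∧ Convex ℝ (⋃ i, U i) ∧
      Δ = {σ | (nerveSet U σ).Nonempty}

end Pool.Agent.CURep
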