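import Pool.Agent.Work.MP_0f1017_co.Defs
import Mathlib.Analysis.Convex.GaugeRescale

/-!
The realization of a simplex is homeomorphic to the closed unit ball.
-/

open Set Metric Bornology

namespace Pool.Agent.CURep

/-- The corner simplex of `ℝ^k`. -/
def cornerSimplex (k : ℕ) : Set (EuclideanSpace ℝ (Fin k)) :=
  {z | (∀ i, 0 ≤ z i) ∧ ∑ i, z i ≤ 1}

lemma cornerSimplex_convex (k : ℕ) : Convex ℝ (cornerSimplex k) := by
  intro x hx y hy a b ha hb hab
  refine ⟨fun i => ?_, ?_⟩
  · have h1 := hx.1 i
    have h2 := hy.1 i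
    simp only [PiLp.add_apply, PiLp.smul_apply, smul_eq_mul]
    positivity
  · have h1 := hx.2
    have h2 := hy.2
    simp only [PiLp.add_apply, PiLp.smul_apply, smul_eq_mul, Finset.sum_add_distrib,
      ← Finset.mul_sum]
    nlinarith

lemma cornerSimplex_isClosed (k : ℕ) : IsClosed (cornerSimplex k) := by
  have h : cornerSimplex k = (⋂ i : Fin k, {z : EuclideanSpace ℝ (Fin k) | 0 ≤ z i}) ∩
      {z : EuclideanSpace ℝ (Fin k) | ∑ i, z i ≤ 1} := by
    ext z; simp [cornerSimplex]
  rw [h]
  refine IsClosed.inter (isClosed_iInter fun i => ?_) ?_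
  · exact isClosed_le continuous_const (by fun_prop)
  · exact isClosed_le (by fun_prop) continuous_const

lemma cornerSimplex_isBounded (k : ℕ) : IsBounded (cornerSimplex k) := by
  refine (isBounded_closedBall (x := (0 : EuclideanSpace ℝ (Fin k))) (r := 1)).subset ?_
  intro z hz
  rw [mem_closedBall_zero_iff, EuclideanSpace.norm_eq]
  have h1 : ∀ i, z i ≤ 1 := fun i =>
    le_trans (Finset.single_le_sum (f := fun i => z i) (fun j _ => hz.1 j) (Finset.mem_univ i)) hz.2
  have h2 : ∑ i, ‖z i‖ ^ 2 ≤ 1 := by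
    refine le_trans (Finset.sum_le_sum fun i _ => ?_) hz.2
    rw [Real.norm_eq_abs, sq_abs]
    nlinarith [hz.1 i, h1 i]
  calc Real.sqrt (∑ i, ‖z i‖ ^ 2) ≤ Real.sqrt 1 := Real.sqrt_le_sqrt h2
    _ = 1 := Real.sqrt_one

lemma cornerSimplex_interior (k : ℕ) : (interior (cornerSimplex k)).Nonempty := by
  have hopen : IsOpen ((⋂ i : Fin k, {z : EuclideanSpace ℝ (Fin k) | 0 < z i}) ∩
      {z : EuclideanSpace ℝ (Fin k) | ∑ i, z i < 1}) := by
    refine IsOpen.inter (isOpen_iInter_of_finite fun i => ?_) ?_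
    · exact isOpen_lt continuous_const (by fun_prop)
    · exact isOpen_lt (by fun_prop) continuous_const
  have hsub : ((⋂ i : Fin k, {z : EuclideanSpace ℝ (Fin k) | 0 < z i}) ∩
      {z : EuclideanSpace ℝ (Fin k) | ∑ i, z i < 1}) ⊆ cornerSimplex k := by
    rintro z ⟨hz1, hz2⟩
    simp only [mem_iInter, mem_ofPred_eq] at hz1 hz2
    exact ⟨fun i => (hz1 i).le, hz2.le⟩
  refine ⟨WithLp.toLp 2 (fun _ => 1 / ((k : ℝ) + 1)), interior_maximal hsub hopen ?_⟩
  refine ⟨?_, ?_⟩
  · simp only [mem_iInter, mem_ofPred_eq]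
    intro i
    positivity
  · simp only [mem_ofPred_eq, Finset.sum_const, Finset.card_univ, Fintype.card_fin, nsmul_eq_mul]
    rw [mul_one_div, div_lt_one (by positivity)]
    linarith

lemma cornerSimplex_homeo_ball (k : ℕ) :
    Nonempty (cornerSimplex k ≃ₜ closedBall (0 : EuclideanSpace ℝ (Fin k)) 1) := by
  obtain ⟨h, -, h2, -⟩ := exists_homeomorph_image_interior_closure_frontier_eq_unitBall
    (cornerSimplex_convex k) (cornerSimplex_interior k) (cornerSimplex_isBounded k)
  rw [(cornerSimplex_isClosed k).closure_eq] at h2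
  exact ⟨(h.image (cornerSimplex k)).trans (Homeomorph.setCongr h2)⟩

theorem simplex_homeo_ball {V : Type} [Fintype V] (k : ℕ) (F : Finset V) (hF : F.card = k + 1) :
    Nonempty (realization ({F} : Set (Finset V)) ≃ₜ
      Metric.closedBall (0 : EuclideanSpace ℝ (Fin k)) 1) := by
  classical
  obtain ⟨g⟩ := cornerSimplex_homeo_ball k
  let e : F ≃ Fin (k + 1) := F.equivFinOfCardEq hF
  have hsumF : ∀ x : V → ℝ, (∀ i, i ∉ F → x i = 0) →
      ∑ i, x i = ∑ j : Fin (k + 1), x (e.symm j : V) := by
    intro x hx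
    rw [← Finset.sum_subset (Finset.subset_univ F) (fun i _ hi => hx i hi),
      ← Finset.sum_coe_sort F x]
    exact (Equiv.sum_comp e.symm (fun v : F => x (v : V))).symm
  let fwd : realization ({F} : Set (Finset V)) → cornerSimplex k := fun x =>
    ⟨WithLp.toLp 2 (fun i : Fin k => (x : V → ℝ) (e.symm i.castSucc : V)), by
      obtain ⟨x, hx0, hx1, σ, hσ, hx2⟩ := x
      rw [mem_singleton_iff] at hσ
      subst hσ
      refine ⟨fun i => hx0 _, ?_⟩
      have h := hsumF x hx2
      rw [hx1, Fin.sum_univ_castSucc] at h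
      have h' := hx0 (e.symm (Fin.last k) : V)
      simp only
      linarith⟩
  let w : EuclideanSpace ℝ (Fin k) → Fin (k + 1) → ℝ := fun z =>
    Fin.snoc (α := fun _ => ℝ) (fun i => z i) (1 - ∑ i, z i)
  have hw0 : ∀ z ∈ cornerSimplex k, ∀ j, 0 ≤ w z j := by
    intro z hz j
    refine Fin.lastCases ?_ (fun i => ?_) j
    · simp only [w, Fin.snoc_last]; linarith [hz.2]
    · simp only [w, Fin.snoc_castSucc]; exact hz.1 i
  have hw1 : ∀ z, ∑ j, w z j = 1 := by
    intro z
    rw [Fin.sum_univ_castSucc]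
    simp only [w, Fin.snoc_last, Fin.snoc_castSucc]
    ring
  have hwc : ∀ j, Continuous fun z => w z j := by
    intro j
    refine Fin.lastCases ?_ (fun i => ?_) j
    · simp only [w, Fin.snoc_last]; fun_prop
    · simp only [w, Fin.snoc_castSucc]; fun_prop
  let back : cornerSimplex k → realization ({F} : Set (Finset V)) := fun z =>
    ⟨fun v => if h : v ∈ F then w z (e ⟨v, h⟩) else 0, by
      refine ⟨fun v => ?_, ?_, F, rfl, fun v hv => ?_⟩
      · by_cases h : v ∈ F
        · simp only [h, dif_pos]; exact hw0 z z.2 _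
        · simp [h]
      · rw [hsumF _ (fun i hi => by simp [hi])]
        have : ∀ j : Fin (k + 1), (if h : (e.symm j : V) ∈ F then
            w z (e ⟨(e.symm j : V), h⟩) else 0) = w z j := by
          intro j
          rw [dif_pos (e.symm j).2]
          congr 1
          exact e.apply_symm_apply j
        simp only [this]
        exact hw1 z
      · simp [hv]⟩
  refine ⟨Homeomorph.trans (Homeomorph.mk ⟨fwd, back, ?_, ?_⟩ ?_ ?_) g⟩
  · rintro ⟨x, hx0, hx1, σ, hσ, hx2⟩
    rw [mem_singleton_iff] at hσ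
    subst hσ
    apply Subtype.ext
    funext v
    by_cases h : v ∈ σ
    · simp only [back, fwd, h, dif_pos]
      have key : ∀ j : Fin (k + 1), w (WithLp.toLp 2
          (fun i : Fin k => x (e.symm i.castSucc : V))) j = x (e.symm j : V) := by
        intro j
        refine Fin.lastCases ?_ (fun i => ?_) j
        · simp only [w, Fin.snoc_last]
          have h := hsumF x hx2
          rw [hx1, Fin.sum_univ_castSucc] at h
          linarith
        · simp only [w, Fin.snoc_castSucc]
      rw [key, e.symm_apply_apply]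
    · simp only [back, h, dif_neg, not_false_eq_true]
      exact (hx2 v h).symm
  · rintro ⟨z, hz⟩
    apply Subtype.ext
    ext i
    simp only [fwd, back]
    rw [dif_pos (e.symm i.castSucc).2]
    have : e ⟨(e.symm i.castSucc : V), (e.symm i.castSucc).2⟩ = i.castSucc :=
      e.apply_symm_apply _
    rw [this]
    simp only [w, Fin.snoc_castSucc]
  · refine Continuous.subtype_mk ?_ _
    refine (PiLp.continuous_toLp 2 _).comp ?_
    refine continuous_pi fun i => ?_
    exact (continuous_apply _).comp continuous_subtype_val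
  · refine Continuous.subtype_mk ?_ _
    refine continuous_pi fun v => ?_
    by_cases h : v ∈ F
    · simp only [h, dif_pos]
      exact (hwc _).comp continuous_subtype_val
    · simp only [h, dif_neg, not_false_eq_true]
      exact continuous_const

end Pool.Agent.CURep
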