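import Pool.Agent.Work.MP_0f1017_co.Defs

/-!
Stellar subdivision does not change the geometric realization up to homeomorphism.
-/

namespace Pool.Agent.CURep

variable {V : Type}

/-- The smallest coordinate over `σ`. -/
def stMin (σ : Finset V) (hσ : σ.Nonempty) (x : V → ℝ) : ℝ := σ.inf' hσ x

theorem stMin_continuous (σ : Finset V) (hσ : σ.Nonempty) : Continuous (stMin σ hσ) := by
  unfold stMin
  exact Continuous.finset_inf'_apply hσ (fun i _ => continuous_apply i)

open Classical in
/-- Forward map of the stellar subdivision. -/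
noncomputable def stFwd (σ : Finset V) (hσ : σ.Nonempty) (c : V) (x : V → ℝ) : V → ℝ :=
  fun i => if i = c then (σ.card : ℝ) * stMin σ hσ x else
    if i ∈ σ then x i - stMin σ hσ x else x i

open Classical in
/-- Backward map of the stellar subdivision. -/
noncomputable def stBwd (σ : Finset V) (c : V) (y : V → ℝ) : V → ℝ :=
  fun i => if i = c then 0 else if i ∈ σ then y i + y c / (σ.card : ℝ) else y i

theorem stFwd_continuous (σ : Finset V) (hσ : σ.Nonempty) (c : V) :
    Continuous (stFwd σ hσ c) := by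
  refine continuous_pi fun i => ?_
  unfold stFwd
  have h := stMin_continuous σ hσ
  split_ifs
  · exact continuous_const.mul h
  · exact (continuous_apply i).sub h
  · exact continuous_apply i

theorem stBwd_continuous (σ : Finset V) (c : V) : Continuous (stBwd σ c) := by
  refine continuous_pi fun i => ?_
  unfold stBwd
  split_ifs
  · exact continuous_const
  · exact (continuous_apply i).add ((continuous_apply c).div_const _)
  · exact continuous_apply i

theorem stMin_le {σ : Finset V} (hσ : σ.Nonempty) (x : V → ℝ) {i : V} (hi : i ∈ σ) :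
    stMin σ hσ x ≤ x i := Finset.inf'_le x hi

theorem exists_eq_stMin {σ : Finset V} (hσ : σ.Nonempty) (x : V → ℝ) :
    ∃ i ∈ σ, stMin σ hσ x = x i := Finset.exists_mem_eq_inf' hσ x

theorem stMin_nonneg {σ : Finset V} (hσ : σ.Nonempty) {x : V → ℝ} (h0 : ∀ i, 0 ≤ x i) :
    0 ≤ stMin σ hσ x := by
  obtain ⟨i, _, h⟩ := exists_eq_stMin hσ x
  rw [h]; exact h0 i

theorem stMin_eq {σ : Finset V} (hσ : σ.Nonempty) {x : V → ℝ} {a : ℝ} (h : ∀ i ∈ σ, a ≤ x i)
    {i : V} (hi : i ∈ σ) (hx : x i = a) : stMin σ hσ x = a := by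
  refine le_antisymm ((stMin_le hσ x hi).trans hx.le) ?_
  exact Finset.le_inf' hσ x h

theorem sum_stFwd [Fintype V] [DecidableEq V] {σ : Finset V} (hσ : σ.Nonempty) {c : V}
    (hcσ : c ∉ σ) (x : V → ℝ) (hx : x c = 0) : ∑ i, stFwd σ hσ c x i = ∑ i, x i := by
  have h : ∀ i, stFwd σ hσ c x i = x i +
      ((if i = c then (σ.card : ℝ) * stMin σ hσ x else 0) -
        (if i ∈ σ then stMin σ hσ x else 0)) := by
    intro i
    unfold stFwd
    by_cases hic : i = c
    · subst hic
      simp [hcσ, hx]
    · by_cases his : i ∈ σ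
      · simp [hic, his, sub_eq_add_neg]
      · simp [hic, his]
  rw [Finset.sum_congr rfl fun i _ => h i, Finset.sum_add_distrib, Finset.sum_sub_distrib]
  simp

theorem sum_stBwd [Fintype V] [DecidableEq V] {σ : Finset V} (hσ : σ.Nonempty) {c : V}
    (hcσ : c ∉ σ) (y : V → ℝ) : ∑ i, stBwd σ c y i = ∑ i, y i := by
  have h : ∀ i, stBwd σ c y i = y i +
      ((if i ∈ σ then y c / (σ.card : ℝ) else 0) - (if i = c then y c else 0)) := by
    intro i
    unfold stBwd
    by_cases hic : i = c
    · subst hic
      simp [hcσ]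
    · by_cases his : i ∈ σ
      · simp [hic, his]
      · simp [hic, his]
  have hc0 : (σ.card : ℝ) ≠ 0 := by exact_mod_cast hσ.card_pos.ne'
  rw [Finset.sum_congr rfl fun i _ => h i, Finset.sum_add_distrib, Finset.sum_sub_distrib]
  simp only [Finset.sum_ite_mem, Finset.univ_inter, Finset.sum_const, nsmul_eq_mul,
    Finset.sum_ite_eq', Finset.mem_univ, if_true]
  field_simp
  ring

theorem stellar_homeo {V : Type} [Fintype V] [DecidableEq V] (L L' : Set (Finset V))
    (σ : Finset V) (c : V) (hσ : σ.Nonempty) (hcσ : c ∉ σ) (hc : ∀ F ∈ L, c ∉ F)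
    (h1 : ∀ F ∈ L, ¬ σ ⊆ F → F ∈ L')
    (h2 : ∀ F ∈ L, σ ⊆ F → ∀ x ∈ σ, insert c (F.erase x) ∈ L')
    (h3 : ∀ G ∈ L', (G ∈ L ∧ ¬ σ ⊆ G) ∨
      ∃ F ∈ L, σ ⊆ F ∧ ∃ x ∈ σ, G = insert c (F.erase x)) :
    Nonempty (realization L ≃ₜ realization L') := by
  have hcard : (0 : ℝ) < σ.card := by exact_mod_cast hσ.card_pos
  have hxc : ∀ x ∈ realization L, x c = 0 := by
    rintro x ⟨_, _, F, hF, hs⟩
    exact hs c (hc F hF)
  -- the minimum over `σ` vanishes on the realization of `L'`
  have hmin : ∀ y ∈ realization L', ∃ i ∈ σ, y i = 0 := by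
    rintro y ⟨_, _, G, hG, hs⟩
    rcases h3 G hG with ⟨_, hσG⟩ | ⟨F, hF, hσF, x, hx, rfl⟩
    · obtain ⟨i, hi, hiG⟩ := Finset.not_subset.mp hσG
      exact ⟨i, hi, hs i hiG⟩
    · refine ⟨x, hx, hs x ?_⟩
      intro h
      rcases Finset.mem_insert.mp h with h | h
      · exact hcσ (h ▸ hx)
      · exact (Finset.mem_erase.mp h).1 rfl
  have hfwd : ∀ x ∈ realization L, stFwd σ hσ c x ∈ realization L' := by
    rintro x hx
    have hx0 := hxc x hx
    obtain ⟨hnn, hsum, F, hF, hs⟩ := hx
    refine ⟨?_, ?_, ?_⟩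
    · intro i
      unfold stFwd
      split_ifs with a b
      · exact mul_nonneg hcard.le (stMin_nonneg hσ hnn)
      · exact sub_nonneg.mpr (stMin_le hσ x b)
      · exact hnn i
    · rw [sum_stFwd hσ hcσ x hx0, hsum]
    · by_cases hσF : σ ⊆ F
      · obtain ⟨i0, hi0, hm⟩ := exists_eq_stMin hσ x
        refine ⟨_, h2 F hF hσF i0 hi0, ?_⟩
        intro i hi
        rw [Finset.mem_insert, not_or] at hi
        obtain ⟨hic, hie⟩ := hi
        unfold stFwd
        rw [if_neg hic]
        by_cases hii : i = i0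
        · subst hii
          rw [if_pos hi0, hm, sub_self]
        · have hiF : i ∉ F := fun h => hie (Finset.mem_erase.mpr ⟨hii, h⟩)
          rw [if_neg (fun h => hiF (hσF h))]
          exact hs i hiF
      · refine ⟨F, h1 F hF hσF, ?_⟩
        obtain ⟨j, hj, hjF⟩ := Finset.not_subset.mp hσF
        have hm : stMin σ hσ x = 0 := stMin_eq hσ (fun i _ => hnn i) hj (hs j hjF)
        intro i hi
        unfold stFwd
        rw [hm]
        split_ifs
        · simp
        · simpa using hs i hi
        · exact hs i hi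
  have hbwd : ∀ y ∈ realization L', stBwd σ c y ∈ realization L := by
    rintro y ⟨hnn, hsum, G, hG, hs⟩
    refine ⟨?_, ?_, ?_⟩
    · intro i
      unfold stBwd
      split_ifs
      · exact le_rfl
      · exact add_nonneg (hnn i) (div_nonneg (hnn c) hcard.le)
      · exact hnn i
    · rw [sum_stBwd hσ hcσ y, hsum]
    · rcases h3 G hG with ⟨hGL, hσG⟩ | ⟨F, hF, hσF, x, hx, rfl⟩
      · refine ⟨G, hGL, ?_⟩
        have hyc : y c = 0 := hs c (hc G hGL)
        intro i hi
        unfold stBwd
        split_ifs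
        · rfl
        · rw [hyc, hs i hi]; simp
        · exact hs i hi
      · refine ⟨F, hF, ?_⟩
        intro i hi
        unfold stBwd
        by_cases hic : i = c
        · rw [if_pos hic]
        · rw [if_neg hic, if_neg (fun h => hi (hσF h))]
          refine hs i ?_
          intro h
          rcases Finset.mem_insert.mp h with h | h
          · exact hic h
          · exact hi (Finset.mem_of_mem_erase h)
  refine ⟨{
    toFun := fun x => ⟨stFwd σ hσ c x.1, hfwd x.1 x.2⟩
    invFun := fun y => ⟨stBwd σ c y.1, hbwd y.1 y.2⟩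
    left_inv := ?_
    right_inv := ?_
    continuous_toFun := ?_
    continuous_invFun := ?_ }⟩
  · rintro ⟨x, hx⟩
    apply Subtype.ext
    have hx0 := hxc x hx
    funext i
    change stBwd σ c (stFwd σ hσ c x) i = x i
    by_cases hic : i = c
    · subst hic
      simp [stBwd, hx0]
    · by_cases his : i ∈ σ
      · simp only [stBwd, stFwd, if_neg hic, if_pos his, if_true]
        field_simp
        ring
      · simp [stBwd, stFwd, hic, his]
  · rintro ⟨y, hy⟩
    apply Subtype.ext
    obtain ⟨j, hj, hyj⟩ := hmin y hy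
    have hnn := hy.1
    funext i
    change stFwd σ hσ c (stBwd σ c y) i = y i
    have hm : stMin σ hσ (stBwd σ c y) = y c / σ.card := by
      refine stMin_eq hσ ?_ hj ?_
      · intro k hk
        have hkc : k ≠ c := fun h => hcσ (h ▸ hk)
        simp only [stBwd, if_neg hkc, if_pos hk]
        linarith [hnn k]
      · have hjc : j ≠ c := fun h => hcσ (h ▸ hj)
        simp only [stBwd, if_neg hjc, if_pos hj, hyj, zero_add]
    unfold stFwd
    rw [hm]
    by_cases hic : i = c
    · subst hic
      rw [if_pos rfl]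
      field_simp
    · rw [if_neg hic]
      by_cases his : i ∈ σ
      · rw [if_pos his]
        simp only [stBwd, if_neg hic, if_pos his]
        ring
      · rw [if_neg his]
        simp only [stBwd, if_neg hic, if_neg his]
  · exact ((stFwd_continuous σ hσ c).comp continuous_subtype_val).subtype_mk _
  · exact ((stBwd_continuous σ c).comp continuous_subtype_val).subtype_mk _

end Pool.Agent.CURep
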