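import Pool.Agent.Work.MP_0f1017_co.ExShell
import Pool.Agent.Work.MP_0f1017_co.Stellar
import Pool.Agent.Work.MP_0f1017_co.SimplexBall

/-!
The example is a 3-ball: a chain of 49 stellar subdivisions and inverse subdivisions leads from it
to a single tetrahedron.
-/

namespace Pool.Agent.CURep

/-- The subset of `{0, ..., 11}` coded by a bit mask. -/
def fs (m : ℕ) : Finset (Fin 12) := Finset.univ.filter fun i => m.testBit i.val = true

lemma mem_fs {m : ℕ} {i : Fin 12} : i ∈ fs m ↔ m.testBit i.val = true := by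
  simp [fs]

/-- The family of subsets coded by a list of masks. -/
def toSet (L : List ℕ) : Set (Finset (Fin 12)) := {F | ∃ m ∈ L, F = fs m}

def subB (s F : ℕ) : Bool := (List.range 12).all fun x => !s.testBit x || F.testBit x

def rep (F x c : ℕ) : ℕ := (F ^^^ 2 ^ x) ||| 2 ^ c

def chk (L L' : List ℕ) (s c : ℕ) : Bool :=
  decide (c < 12) && !s.testBit c && (List.range 12).any (fun x => s.testBit x) &&
  L.all (fun F => !F.testBit c && (if subB s F then
    (List.range 12).all (fun x => !s.testBit x || L'.contains (rep F x c)) else L'.contains F)) &&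
  L'.all (fun G => (L.contains G && !subB s G) ||
    L.any (fun F => subB s F && (List.range 12).any (fun x => s.testBit x && G == rep F x c)))

lemma subB_iff {s F : ℕ} : subB s F = true ↔ fs s ⊆ fs F := by
  unfold subB
  rw [List.all_eq_true]
  constructor
  · intro h i hi
    rw [mem_fs] at hi ⊢
    have := h i.val (List.mem_range.2 i.isLt)
    simpa [hi] using this
  · intro h x hx
    have hx' : x < 12 := List.mem_range.1 hx
    by_cases hs : s.testBit x = true
    · have := h (mem_fs.2 (show s.testBit (⟨x, hx'⟩ : Fin 12).val = true from hs))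
      rw [mem_fs] at this
      simp [this]
    · simp [hs]

lemma fs_rep {F x c : ℕ} (hx : x < 12) (hc : c < 12) (hFx : F.testBit x = true) :
    fs (rep F x c) = insert (⟨c, hc⟩ : Fin 12) ((fs F).erase ⟨x, hx⟩) := by
  ext i
  rw [mem_fs, Finset.mem_insert, Finset.mem_erase, mem_fs]
  unfold rep
  rw [Nat.testBit_or, Nat.testBit_xor, Nat.testBit_two_pow, Nat.testBit_two_pow]
  have e1 : (i = (⟨c, hc⟩ : Fin 12)) ↔ c = i.val := by
    rw [Fin.ext_iff]; exact eq_comm
  have e2 : (i ≠ (⟨x, hx⟩ : Fin 12)) ↔ ¬ x = i.val := by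
    rw [Ne, Fin.ext_iff]; exact not_congr eq_comm
  rw [e1, e2]
  by_cases hci : c = i.val
  · simp [hci]
  · by_cases hxi : x = i.val
    · rw [← hxi, hFx]
      simp
    · simp [hci, hxi]

theorem chk_homeo {L L' : List ℕ} {s c : ℕ} (h : chk L L' s c = true) :
    Nonempty (realization (toSet L) ≃ₜ realization (toSet L')) := by
  unfold chk at h
  simp only [Bool.and_eq_true, decide_eq_true_eq, Bool.not_eq_true', List.any_eq_true,
    List.all_eq_true, Bool.or_eq_true, List.contains_iff_mem, List.mem_range, beq_iff_eq] at h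
  obtain ⟨⟨⟨⟨hc, hsc⟩, ⟨x₀, hx₀, hsx₀⟩⟩, hL⟩, hL'⟩ := h
  refine stellar_homeo (toSet L) (toSet L') (fs s) ⟨c, hc⟩ ⟨⟨x₀, hx₀⟩, mem_fs.2 hsx₀⟩ ?_ ?_ ?_ ?_ ?_
  · rw [mem_fs]
    simp [hsc]
  · rintro F ⟨m, hm, rfl⟩
    rw [mem_fs]
    simp [(hL m hm).1]
  · rintro F ⟨m, hm, rfl⟩ hns
    have h2 := (hL m hm).2
    rw [if_neg (fun hh => hns (subB_iff.1 hh))] at h2
    exact ⟨m, List.contains_iff_mem.1 h2, rfl⟩
  · rintro F ⟨m, hm, rfl⟩ hsub x hx
    have h2 := (hL m hm).2
    rw [if_pos (subB_iff.2 hsub), List.all_eq_true] at h2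
    have h3 := h2 x.val (List.mem_range.2 x.isLt)
    rw [mem_fs] at hx
    have hxm : m.testBit x.val = true := mem_fs.1 (hsub (mem_fs.2 hx))
    rw [hx] at h3
    simp only [Bool.not_true, Bool.false_or] at h3
    exact ⟨rep m x.val c, List.contains_iff_mem.1 h3, (fs_rep x.isLt hc hxm).symm⟩
  · rintro G ⟨m, hm, rfl⟩
    rcases hL' m hm with ⟨h1, h2⟩ | ⟨F, hF, h1, x, hx, hsx, hmx⟩
    · left
      refine ⟨⟨m, h1, rfl⟩, fun hh => ?_⟩
      rw [subB_iff.2 hh] at h2
      exact absurd h2 (by decide)
    · right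
      have hsub := subB_iff.1 h1
      have hFx : F.testBit x = true :=
        mem_fs.1 (hsub (mem_fs.2 (show s.testBit (⟨x, hx⟩ : Fin 12).val = true from hsx)))
      exact ⟨fs F, ⟨F, hF, rfl⟩, hsub, ⟨x, hx⟩, mem_fs.2 hsx, by rw [hmx, fs_rep hx hc hFx]⟩

/-- Apply a move: `(false, s, c)` subdivides the face `s` with the new vertex `c`; `(true, s, c)` is
the inverse of such a subdivision. -/
def nextL (L : List ℕ) (mv : Bool × ℕ × ℕ) : List ℕ :=
  if mv.1 then
    (L.map fun F => if F.testBit mv.2.2 then (F ^^^ 2 ^ mv.2.2) ||| mv.2.1 else F).dedup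
  else L.flatMap fun F => if subB mv.2.1 F then
    ((List.range 12).filter fun x => mv.2.1.testBit x).map fun x => rep F x mv.2.2 else [F]

def run : List ℕ → List (Bool × ℕ × ℕ) → Option (List ℕ)
  | L, [] => some L
  | L, mv :: rest =>
    if (if mv.1 then chk (nextL L mv) L mv.2.1 mv.2.2 else chk L (nextL L mv) mv.2.1 mv.2.2) then
      run (nextL L mv) rest else none

theorem run_homeo : ∀ (mvs : List (Bool × ℕ × ℕ)) (L L' : List ℕ), run L mvs = some L' →
    Nonempty (realization (toSet L) ≃ₜ realization (toSet L'))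
  | [], L, L', h => by
    simp only [run, Option.some.injEq] at h
    subst h
    exact ⟨Homeomorph.refl _⟩
  | mv :: rest, L, L', h => by
    unfold run at h
    split_ifs at h with h1 h2 h3
    · obtain ⟨e⟩ := run_homeo rest _ _ h
      obtain ⟨e'⟩ := chk_homeo h2
      exact ⟨e'.symm.trans e⟩
    · obtain ⟨e⟩ := run_homeo rest _ _ h
      obtain ⟨e'⟩ := chk_homeo h3
      exact ⟨e'.trans e⟩

def chain : List (Bool × ℕ × ℕ) := [(false, 672, 11), (true, 1032, 11), (true, 10, 6), (false, 130, 6), (true, 9, 6), (false, 25,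
  6), (true, 130, 6), (false, 130, 6), (true, 25, 6), (false, 288, 6), (true, 522, 6), (false,
  544, 6), (true, 1034, 6), (false, 1032, 6), (true, 130, 6), (false, 1168, 6), (true, 33, 6),
  (false, 1044, 6), (true, 288, 6), (false, 288, 6), (true, 1044, 6), (false, 642, 6), (true,
  1032, 6), (false, 144, 6), (true, 41, 6), (false, 258, 6), (true, 513, 6), (true, 5, 8),
  (false, 1040, 6), (true, 37, 6), (false, 12, 6), (true, 641, 6), (false, 516, 6), (true, 144,
  6), (false, 130, 6), (true, 1064, 6), (true, 130, 9), (false, 160, 6), (true, 1033, 6), (true,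
  12, 5), (false, 3, 5), (true, 152, 5), (false, 1032, 5), (true, 3, 5), (false, 136, 5), (true,
  19, 5), (true, 136, 4), (true, 1032, 1), (true, 1156, 0)]

lemma run_chain : ∃ m, run masks chain = some [m] ∧ (fs m).card = 3 + 1 := by
  refine ⟨1164, ?_, ?_⟩ <;> decide +kernel

/-- Passing from ground set `Fin 11` to `Fin 12`. -/
theorem extend_homeo : Nonempty (realization exDelta ≃ₜ realization (toSet masks)) := by
  have hm11 : ∀ m ∈ masks, m.testBit 11 = false := by decide
  have hlast : ∀ y ∈ realization (toSet masks), y (Fin.last 11) = 0 := by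
    rintro y ⟨-, -, F, ⟨m, hm, rfl⟩, hF⟩
    apply hF
    rw [mem_fs]
    simp [hm11 m hm]
  refine ⟨{ toFun := fun x => ⟨fun i : Fin 12 => Fin.lastCases (motive := fun _ => ℝ) 0
              (fun j : Fin 11 => x.1 j) i, ?_⟩
            invFun := fun y => ⟨fun j : Fin 11 => y.1 j.castSucc, ?_⟩
            left_inv := ?_
            right_inv := ?_
            continuous_toFun := ?_
            continuous_invFun := ?_ }⟩
  · obtain ⟨x, h0, h1, σ, ⟨m, hm, hσ⟩, hσ0⟩ := x
    refine ⟨?_, ?_, fs m, ⟨m, hm, rfl⟩, ?_⟩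
    · intro i
      refine Fin.lastCases ?_ (fun j => ?_) i
      · simp only [Fin.lastCases_last]
        exact le_refl _
      · simp only [Fin.lastCases_castSucc]
        exact h0 j
    · rw [Fin.sum_univ_castSucc]
      simp only [Fin.lastCases_last, Fin.lastCases_castSucc, add_zero]
      exact h1
    · intro i hi
      revert hi
      refine Fin.lastCases ?_ (fun j => ?_) i
      · intro _
        simp only [Fin.lastCases_last]
      · intro hi
        rw [mem_fs] at hi
        simp only [Fin.lastCases_castSucc]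
        apply hσ0
        intro hj
        exact hi (by simpa using hσ j hj)
  · obtain ⟨y, h0, h1, F, ⟨m, hm, rfl⟩, hF⟩ := y
    refine ⟨fun i => h0 _, ?_, fs11 m, ⟨m, hm, fun i hi => mem_fs11.1 hi⟩, ?_⟩
    · have hl := hlast y ⟨h0, h1, fs m, ⟨m, hm, rfl⟩, hF⟩
      rw [Fin.sum_univ_castSucc, hl, add_zero] at h1
      exact h1
    · intro i hi
      apply hF
      rw [mem_fs]
      rw [mem_fs11] at hi
      simpa using hi
  · intro x
    ext j
    simp
  · intro y
    ext i
    refine Fin.lastCases ?_ (fun j => ?_) i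
    · simp only [Fin.lastCases_last]
      exact (hlast y.1 y.2).symm
    · simp only [Fin.lastCases_castSucc]
  · apply Continuous.subtype_mk
    apply continuous_pi
    intro i
    refine Fin.lastCases ?_ (fun j => ?_) i
    · simp only [Fin.lastCases_last]
      exact continuous_const
    · simp only [Fin.lastCases_castSucc]
      exact (continuous_apply j).comp continuous_subtype_val
  · apply Continuous.subtype_mk
    apply continuous_pi
    intro j
    exact (continuous_apply _).comp continuous_subtype_val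

theorem exDelta_ball : IsSimplicialBall 3 exDelta := by
  refine ⟨exDelta_isComplex, ?_⟩
  obtain ⟨m, h1, h2⟩ := run_chain
  obtain ⟨e1⟩ := extend_homeo
  obtain ⟨e2⟩ := run_homeo chain masks [m] h1
  have e : toSet [m] = {fs m} := by
    ext F
    simp [toSet]
  obtain ⟨e3⟩ := simplex_homeo_ball 3 (fs m) h2
  rw [← e] at e3
  exact ⟨(e1.trans e2).trans e3⟩

end Pool.Agent.CURep
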