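import Pool.Agent.Work.MP_0f1017_co.Example

/-!
The example is shellable.
-/

namespace Pool.Agent.CURep

/-- The subset of `{0, ..., 10}` coded by a bit mask. -/
def fs11 (m : ℕ) : Finset (Fin 11) := Finset.univ.filter fun i => m.testBit i.val = true

lemma mem_fs11 {m : ℕ} {i : Fin 11} : i ∈ fs11 m ↔ m.testBit i.val = true := by
  simp [fs11]

lemma mem_exDelta {σ : Finset (Fin 11)} : σ ∈ exDelta ↔ ∃ m ∈ masks, σ ⊆ fs11 m := by
  constructor
  · rintro ⟨m, hm, h⟩
    exact ⟨m, hm, fun i hi => mem_fs11.2 (h i hi)⟩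
  · rintro ⟨m, hm, h⟩
    exact ⟨m, hm, fun i hi => mem_fs11.1 (h hi)⟩

/-- A criterion for shellability of the complex generated by a list. -/
lemma shellable_of_check {V : Type} [DecidableEq V] (k : ℕ) (L : List (Finset V))
    (hne : L ≠ []) (hnd : L.Nodup) (hcard : ∀ F ∈ L, F.card = k + 1)
    (hcheck : ∀ (j : ℕ) (hj : j < L.length) (i : ℕ) (hi : i < j),
      ∃ (l : ℕ) (hl : l < j), ∃ x ∈ L[j], L[j] ∩ L[i] ⊆ (L[j]).erase x ∧ (L[j]).erase x ⊆ L[l]) :
    Shellable k {σ | ∃ F ∈ L, σ ⊆ F} := by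
  have hfac : ∀ F, F ∈ L ↔ IsFacet {σ | ∃ F ∈ L, σ ⊆ F} F := by
    intro F
    constructor
    · intro hF
      refine ⟨⟨F, hF, Finset.Subset.refl F⟩, ?_⟩
      rintro G ⟨F', hF', hGF'⟩ hFG
      have h1 : F = F' := Finset.eq_of_subset_of_card_le (hFG.trans hGF')
        (by rw [hcard F hF, hcard F' hF'])
      subst h1
      exact Finset.Subset.antisymm hGF' hFG
    · rintro ⟨⟨F', hF', hFF'⟩, hmax⟩
      have := hmax F' ⟨F', hF', Finset.Subset.refl F'⟩ hFF'
      rwa [← this]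
  refine ⟨⟨?_, fun F hF => hcard F ((hfac F).2 hF)⟩, L, hnd, hfac, ?_⟩
  · obtain ⟨F, hF⟩ := List.exists_mem_of_ne_nil L hne
    exact ⟨F, (hfac F).1 hF⟩
  · intro j hj hj0
    -- every member of the intersection lies in a ridge of the intersection
    have hridge : ∀ σ, (σ ⊆ L[j] ∧ ∃ (i : ℕ) (hi : i < j), σ ⊆ L[i]) →
        ∃ x ∈ L[j], σ ⊆ (L[j]).erase x ∧ ∃ (l : ℕ) (hl : l < j), (L[j]).erase x ⊆ L[l] := by
      rintro σ ⟨hσj, i, hi, hσi⟩
      obtain ⟨l, hl, x, hx, h1, h2⟩ := hcheck j hj i hi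
      exact ⟨x, hx, (Finset.subset_inter hσj hσi).trans h1, l, hl, h2⟩
    have hcj : (L[j]).card = k + 1 := hcard _ (List.getElem_mem hj)
    have hfacR : ∀ x ∈ L[j], (∃ (l : ℕ) (hl : l < j), (L[j]).erase x ⊆ L[l]) →
        IsFacet {σ : Finset V | σ ⊆ L[j] ∧ ∃ (i : ℕ) (hi : i < j), σ ⊆ L[i]} ((L[j]).erase x) := by
      intro x hx hl
      refine ⟨⟨Finset.erase_subset _ _, hl⟩, ?_⟩
      intro G hG hsub
      obtain ⟨y, hy, hGy, -⟩ := hridge G hG
      refine (Finset.eq_of_subset_of_card_le hsub ?_).symm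
      calc G.card ≤ ((L[j]).erase y).card := Finset.card_le_card hGy
        _ = k := by rw [Finset.card_erase_of_mem hy, hcj]; rfl
        _ = ((L[j]).erase x).card := by rw [Finset.card_erase_of_mem hx, hcj]; rfl
    constructor
    · obtain ⟨l, hl, x, hx, h1, h2⟩ := hcheck j hj 0 hj0
      exact ⟨_, hfacR x hx ⟨l, hl, h2⟩⟩
    · rintro F ⟨hF, hmax⟩
      obtain ⟨x, hx, hFx, hl⟩ := hridge F hF
      have := hmax _ (hfacR x hx hl).1 hFx
      rw [← this, Finset.card_erase_of_mem hx, hcj]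
      rfl

lemma exDelta_eq : exDelta = {σ | ∃ F ∈ masks.map fs11, σ ⊆ F} := by
  ext σ
  rw [mem_exDelta]
  simp [List.mem_map]

lemma check_masks : ∀ j : Fin 26, ∀ i : Fin 26, i.val < j.val → ∃ l : Fin 26, l.val < j.val ∧
    ∃ x : Fin 11, (masks.getD j.val 0).testBit x.val = true ∧
      (∀ y : Fin 11, (masks.getD j.val 0).testBit y.val = true →
        (masks.getD i.val 0).testBit y.val = true → y ≠ x) ∧
      (∀ y : Fin 11, (masks.getD j.val 0).testBit y.val = true → y ≠ x →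
        (masks.getD l.val 0).testBit y.val = true) := by
  decide +kernel

theorem exDelta_shellable : Shellable 3 exDelta := by
  rw [exDelta_eq]
  apply shellable_of_check
  · decide
  · have h1 : masks.Nodup := by decide
    refine List.Nodup.map_on ?_ h1
    intro a ha b hb hab
    have key : ∀ a ∈ masks, ∀ b ∈ masks,
        (∀ i : Fin 11, a.testBit i.val = b.testBit i.val) → a = b := by decide +kernel
    apply key a ha b hb
    intro i
    have : i ∈ fs11 a ↔ i ∈ fs11 b := by rw [hab]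
    rw [mem_fs11, mem_fs11] at this
    exact Bool.eq_iff_iff.2 this
  · intro F hF
    obtain ⟨m, hm, rfl⟩ := List.mem_map.1 hF
    have key : ∀ m ∈ masks, (fs11 m).card = 3 + 1 := by decide +kernel
    exact key m hm
  · intro j hj i hi
    have hlen : (masks.map fs11).length = 26 := by simp [masks]
    have hj' : j < 26 := by rw [hlen] at hj; exact hj
    obtain ⟨⟨l, hl26⟩, hl, x, hx, h1, h2⟩ := check_masks ⟨j, hj'⟩ ⟨i, hi.trans hj'⟩ hi
    have hget : ∀ (q : ℕ) (hq : q < (masks.map fs11).length),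
        (masks.map fs11)[q] = fs11 (masks.getD q 0) := by
      intro q hq
      have hq' : q < masks.length := by simpa using hq
      rw [List.getElem_map, List.getD_eq_getElem _ _ hq']
    refine ⟨l, hl, x, ?_, ?_, ?_⟩
    · rw [hget, mem_fs11]; exact hx
    · intro y hy
      rw [Finset.mem_inter, hget, hget, mem_fs11, mem_fs11] at hy
      rw [Finset.mem_erase, hget, mem_fs11]
      exact ⟨h1 y hy.1 hy.2, hy.1⟩
    · intro y hy
      rw [Finset.mem_erase, hget, mem_fs11] at hy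
      rw [hget, mem_fs11]
      exact h2 y hy.2 hy.1

lemma exDelta_isComplex : IsComplex exDelta := by
  rintro σ ⟨m, hm, h⟩ τ hτ
  exact ⟨m, hm, fun i hi => h i (hτ hi)⟩

end Pool.Agent.CURep
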