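import Pool.Agent.Work.MP_0f1017_co.Sweep

/-!
Labellings along an induced path with three edges.
-/

namespace Pool.Agent.CURep

open Set Filter Topology

variable {E : Type*} [NormedAddCommGroup E] [NormedSpace ℝ E] {V L : Type*}
  {U : V → Set E} {P : V → Prop} {ok : V → L → Prop} {R : V → V → L → L → Prop}

/-- Two labellings on a connected set that agree at one vertex agree. -/
lemma agree (h : LabSys U P ok R) {Q : Set E} (hQ : IsPreconnected Q) (cov : Q ⊆ ⋃ i, U i)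
    {g g' : V → L} (hg : IsLab U ok R Q g) (hg' : IsLab U ok R Q g') {k₀ : V}
    (hk₀ : (U k₀ ∩ Q).Nonempty) (he : g k₀ = g' k₀) :
    ∀ i, (U i ∩ Q).Nonempty → g i = g' i := by
  classical
  intro i hi
  by_contra hne
  set u : Set E := ⋃ k ∈ {k : V | g k = g' k}, U k with hu
  set v : Set E := ⋃ k ∈ {k : V | g k ≠ g' k}, U k with hv
  have huo : IsOpen u := isOpen_biUnion fun k _ => h.isOpen k
  have hvo : IsOpen v := isOpen_biUnion fun k _ => h.isOpen k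
  have hcov : Q ⊆ u ∪ v := by
    intro q hqS
    obtain ⟨k, hk⟩ := mem_iUnion.1 (cov hqS)
    by_cases hR : g k = g' k
    · exact Or.inl (mem_biUnion (show k ∈ {k : V | g k = g' k} from hR) hk)
    · exact Or.inr (mem_biUnion (show k ∈ {k : V | g k ≠ g' k} from hR) hk)
  obtain ⟨x, hx, hxQ⟩ := hk₀
  obtain ⟨y, hy, hyQ⟩ := hi
  have hun : (Q ∩ u).Nonempty :=
    ⟨x, hxQ, mem_biUnion (show k₀ ∈ {k : V | g k = g' k} from he) hx⟩
  have hvn : (Q ∩ v).Nonempty :=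
    ⟨y, hyQ, mem_biUnion (show i ∈ {k : V | g k ≠ g' k} from hne) hy⟩
  obtain ⟨z, hz, hzu, hzv⟩ := hQ u v huo hvo hcov hun hvn
  obtain ⟨k, hkR, hk⟩ := mem_iUnion₂.1 hzu
  obtain ⟨l, hlR, hl⟩ := mem_iUnion₂.1 hzv
  have hkR' : g k = g' k := hkR
  have hlR' : g l ≠ g' l := hlR
  apply hlR'
  have r1 : R l k (g l) (g k) := hg.2 l k ⟨z, ⟨hl, hk⟩, hz⟩
  have r2 : R k l (g k) (g' l) := by
    rw [hkR']
    exact hg'.2 k l ⟨z, ⟨hk, hl⟩, hz⟩
  exact h.eq_of l _ _ (h.tri l l k (g l) (g' l) (g k) ⟨z, ⟨hl, hl⟩, hk⟩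
    (hg.1 l ⟨z, hl, hz⟩) (hg'.1 l ⟨z, hl, hz⟩) (hg.1 k ⟨z, hk, hz⟩) r1 r2)

/-- Special vertices have at most one label, so labellings agree as soon as a special vertex is
met. -/
lemma agree_special (h : LabSys U P ok R) {Q : Set E} (hQ : IsPreconnected Q)
    (cov : Q ⊆ ⋃ i, U i) {g g' : V → L} (hg : IsLab U ok R Q g) (hg' : IsLab U ok R Q g')
    {p : V} (hp : P p) (hpQ : (U p ∩ Q).Nonempty) :
    ∀ i, (U i ∩ Q).Nonempty → g i = g' i :=
  agree h hQ cov hg hg' hpQ (h.one p _ _ hp (hg.1 p hpQ) (hg'.1 p hpQ))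

lemma exists_level {Q : Set E} (hQ : Convex ℝ Q) (f : E →L[ℝ] ℝ) {u : ℝ} {x y : E} (hx : x ∈ Q)
    (hy : y ∈ Q) (hfx : f x ≤ u) (hfy : u ≤ f y) : ∃ z ∈ Q, f z = u := by
  have := hQ.isPreconnected.intermediate_value hx hy f.continuous.continuousOn
  obtain ⟨z, hz, hz'⟩ := this ⟨hfx, hfy⟩
  exact ⟨z, hz, hz'⟩

/-- Gluing labellings along a hyperplane. -/
lemma glue (h : LabSys U P ok R) {Q : Set E} (hQ : Convex ℝ Q) (f : E →L[ℝ] ℝ) (u : ℝ)
    {g g' : V → L} (hg : IsLab U ok R (Q ∩ {x | f x ≤ u}) g)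
    (hg' : IsLab U ok R (Q ∩ {x | u ≤ f x}) g')
    (hag : ∀ i, (U i ∩ (Q ∩ {x | f x = u})).Nonempty → g i = g' i) :
    ∃ g'', IsLab U ok R Q g'' := by
  classical
  have hboth : ∀ i, (U i ∩ (Q ∩ {x | f x ≤ u})).Nonempty → (U i ∩ (Q ∩ {x | u ≤ f x})).Nonempty →
      g i = g' i := by
    rintro i ⟨x, hxU, hxQ, hx⟩ ⟨y, hyU, hyQ, hy⟩
    obtain ⟨z, ⟨hzU, hzQ⟩, hz⟩ := exists_level ((h.convex i).inter hQ) f ⟨hxU, hxQ⟩ ⟨hyU, hyQ⟩ hx hy
    exact hag i ⟨z, hzU, hzQ, hz⟩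
  refine ⟨fun i => if (U i ∩ (Q ∩ {x | f x ≤ u})).Nonempty then g i else g' i, ?_, ?_⟩
  · rintro i ⟨x, hxU, hxQ⟩
    by_cases hi : (U i ∩ (Q ∩ {x | f x ≤ u})).Nonempty
    · simp only [hi, if_true]
      exact hg.1 i hi
    · simp only [hi, if_false]
      rcases le_total (f x) u with hle | hle
      · exact absurd ⟨x, hxU, hxQ, hle⟩ hi
      · exact hg'.1 i ⟨x, hxU, hxQ, hle⟩
  · rintro i j ⟨x, ⟨hxi, hxj⟩, hxQ⟩
    rcases le_total (f x) u with hle | hle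
    · have hi : (U i ∩ (Q ∩ {x | f x ≤ u})).Nonempty := ⟨x, hxi, hxQ, hle⟩
      have hj : (U j ∩ (Q ∩ {x | f x ≤ u})).Nonempty := ⟨x, hxj, hxQ, hle⟩
      simp only [hi, hj, if_true]
      exact hg.2 i j ⟨x, ⟨hxi, hxj⟩, hxQ, hle⟩
    · have hi : (U i ∩ (Q ∩ {x | u ≤ f x})).Nonempty := ⟨x, hxi, hxQ, hle⟩
      have hj : (U j ∩ (Q ∩ {x | u ≤ f x})).Nonempty := ⟨x, hxj, hxQ, hle⟩
      have hR := hg'.2 i j ⟨x, ⟨hxi, hxj⟩, hxQ, hle⟩
      have ei : (if (U i ∩ (Q ∩ {x | f x ≤ u})).Nonempty then g i else g' i) = g' i := by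
        split_ifs with hh
        · exact hboth i hh hi
        · rfl
      have ej : (if (U j ∩ (Q ∩ {x | f x ≤ u})).Nonempty then g j else g' j) = g' j := by
        split_ifs with hh
        · exact hboth j hh hj
        · rfl
      simp only [ei, ej]
      exact hR

/-- Starting labelling inside one special set. -/
lemma start (h : LabSys U P ok R) {Q₀ : Set E} {j : V} (hQ₀ : Q₀ ⊆ U j)
    (hj : ∃ a₀, ok j a₀ ∧ ∀ p, P p → (U p ∩ U j).Nonempty → ∃ b, ok p b ∧ R p j b a₀) :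
    ∃ g, IsLab U ok R Q₀ g := by
  classical
  obtain ⟨a₀, hok, hpj⟩ := hj
  have key : ∀ i, ∃ a, (U i ∩ U j).Nonempty → ok i a ∧ R i j a a₀ := by
    intro i
    by_cases hi : (U i ∩ U j).Nonempty
    · by_cases hp : P i
      · obtain ⟨b, hb⟩ := hpj i hp hi
        exact ⟨b, fun _ => hb⟩
      · obtain ⟨a, ha⟩ := h.ex i j a₀ hp hi hok
        exact ⟨a, fun _ => ha⟩
    · exact ⟨a₀, fun hh => absurd hh hi⟩
  choose g hgk using key
  refine ⟨g, ?_, ?_⟩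
  · rintro i ⟨x, hx, hxQ⟩
    exact (hgk i ⟨x, hx, hQ₀ hxQ⟩).1
  · rintro i k ⟨x, ⟨hxi, hxk⟩, hxQ⟩
    have h1 := hgk i ⟨x, hxi, hQ₀ hxQ⟩
    have h2 := hgk k ⟨x, hxk, hQ₀ hxQ⟩
    exact h.tri i k j _ _ _ ⟨x, ⟨hxi, hxk⟩, hQ₀ hxQ⟩ h1.1 h2.1 hok h1.2 (h.symm _ _ _ _ h2.2)

lemma path_case [Finite V] (h : LabSys U P ok R) {p0 p1 p2 p3 : V}
    (hP : ∀ p, P p → p = p0 ∨ p = p1 ∨ p = p2 ∨ p = p3) (hP1 : P p1) (hP2 : P p2)
    (hs1 : ∃ a₀, ok p1 a₀ ∧ ∀ p, P p → (U p ∩ U p1).Nonempty → ∃ b, ok p b ∧ R p p1 b a₀)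
    (hs2 : ∃ a₀, ok p2 a₀ ∧ ∀ p, P p → (U p ∩ U p2).Nonempty → ∃ b, ok p b ∧ R p p2 b a₀)
    {a c b : E} (ha0 : a ∈ U p0) (ha1 : a ∈ U p1) (hc1 : c ∈ U p1) (hc2 : c ∈ U p2)
    (hb2 : b ∈ U p2) (hb3 : b ∈ U p3) {T : Set E} (hTc : IsCompact T) (hT : Convex ℝ T)
    (haT : a ∈ T) (hcT : c ∈ T) (hbT : b ∈ T) (cov : T ⊆ ⋃ i, U i)
    {f g : E →L[ℝ] ℝ} {u w : ℝ} (hf1 : ∀ x ∈ U p1, f x < u) (hf3 : ∀ x ∈ U p3, u < f x)
    (hg0 : ∀ x ∈ U p0, g x < w) (hg3 : ∀ x ∈ U p3, w < g x) (hgc : g c ≤ w) :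
    ∃ l, IsLab U ok R T l := by
  classical
  have hcl1 : IsClosed {x : E | f x ≤ u} := isClosed_le f.continuous continuous_const
  have hcl1' : IsClosed {x : E | u ≤ f x} := isClosed_le continuous_const f.continuous
  have hcl2 : IsClosed {x : E | g x ≤ w} := isClosed_le g.continuous continuous_const
  have hcl2' : IsClosed {x : E | w ≤ g x} := isClosed_le continuous_const g.continuous
  have cv1 : Convex ℝ {x : E | f x ≤ u} := convex_halfSpace_le f.isLinear u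
  have cv1' : Convex ℝ {x : E | u ≤ f x} := convex_halfSpace_ge f.isLinear u
  have cv2 : Convex ℝ {x : E | g x ≤ w} := convex_halfSpace_le g.isLinear w
  have cv2' : Convex ℝ {x : E | w ≤ g x} := convex_halfSpace_ge g.isLinear w
  have cv1e : Convex ℝ {x : E | f x = u} := convex_hyperplane f.isLinear u
  have cv2e : Convex ℝ {x : E | g x = w} := convex_hyperplane g.isLinear w
  have hsegc : ∀ x y : E, IsCompact (segment ℝ x y) := by
    intro x y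
    rw [segment_eq_image ℝ x y]
    exact isCompact_Icc.image (by fun_prop)
  have hac : segment ℝ a c ⊆ U p1 := (h.convex p1).segment_subset ha1 hc1
  have hcb : segment ℝ c b ⊆ U p2 := (h.convex p2).segment_subset hc2 hb2
  have hacT : segment ℝ a c ⊆ T := hT.segment_subset haT hcT
  have hcbT : segment ℝ c b ⊆ T := hT.segment_subset hcT hbT
  obtain ⟨l₀, hl₀⟩ := start h hac hs1
  -- labelling on T ∩ {f ≤ u}
  obtain ⟨l1, hl1⟩ : ∃ l, IsLab U ok R (T ∩ {x | f x ≤ u}) l := by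
    refine sweep h (Q₀ := segment ℝ a c) (hsegc a c) (hTc.inter_right hcl1)
      (convex_segment a c) (hT.inter cv1) (fun x hx => ⟨hacT hx, (hf1 x (hac hx)).le⟩)
      ⟨a, left_mem_segment ℝ a c⟩ (inter_subset_left.trans cov) ?_ hl₀
    rintro p hp ⟨x, hx, hxT, hxf⟩
    rcases hP p hp with rfl | rfl | rfl | rfl
    · exact ⟨a, ha0, left_mem_segment ℝ a c⟩
    · exact ⟨a, ha1, left_mem_segment ℝ a c⟩
    · exact ⟨c, hc2, right_mem_segment ℝ a c⟩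
    · exact absurd (hf3 x hx) (not_lt.2 hxf)
  -- labelling on T ∩ {g ≤ w}
  obtain ⟨lm, hlm⟩ : ∃ l, IsLab U ok R (T ∩ {x | g x ≤ w}) l := by
    refine sweep h (Q₀ := segment ℝ a c) (hsegc a c) (hTc.inter_right hcl2)
      (convex_segment a c) (hT.inter cv2)
      (fun x hx => ⟨hacT hx, cv2.segment_subset (hg0 a ha0).le hgc hx⟩)
      ⟨a, left_mem_segment ℝ a c⟩ (inter_subset_left.trans cov) ?_ hl₀
    rintro p hp ⟨x, hx, hxT, hxf⟩
    rcases hP p hp with rfl | rfl | rfl | rfl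
    · exact ⟨a, ha0, left_mem_segment ℝ a c⟩
    · exact ⟨a, ha1, left_mem_segment ℝ a c⟩
    · exact ⟨c, hc2, right_mem_segment ℝ a c⟩
    · exact absurd (hg3 x hx) (not_lt.2 hxf)
  -- labelling on T ∩ {u ≤ f} ∩ {w ≤ g}
  obtain ⟨l3, hl3⟩ : ∃ l, IsLab U ok R ((T ∩ {x | u ≤ f x}) ∩ {x | w ≤ g x}) l := by
    have hsub : (segment ℝ c b ∩ {x | u ≤ f x}) ∩ {x | w ≤ g x} ⊆ U p2 :=
      fun x hx => hcb hx.1.1
    obtain ⟨l₂, hl₂⟩ := start h hsub hs2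
    refine sweep h (((hsegc c b).inter_right hcl1').inter_right hcl2')
      ((hTc.inter_right hcl1').inter_right hcl2')
      (((convex_segment c b).inter cv1').inter cv2') ((hT.inter cv1').inter cv2')
      (fun x hx => ⟨⟨hcbT hx.1.1, hx.1.2⟩, hx.2⟩)
      ⟨b, ⟨right_mem_segment ℝ c b, (hf3 b hb3).le⟩, (hg3 b hb3).le⟩
      ((inter_subset_left.trans inter_subset_left).trans cov) ?_ hl₂
    rintro p hp ⟨x, hx, ⟨hxT, hxf⟩, hxg⟩
    rcases hP p hp with rfl | rfl | rfl | rfl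
    · exact absurd (hg0 x hx) (not_lt.2 hxg)
    · exact absurd (hf1 x hx) (not_lt.2 hxf)
    · exact ⟨b, hb2, ⟨right_mem_segment ℝ c b, (hf3 b hb3).le⟩, (hg3 b hb3).le⟩
    · exact ⟨b, hb3, ⟨right_mem_segment ℝ c b, (hf3 b hb3).le⟩, (hg3 b hb3).le⟩
  -- the two crossing points on the segment from c to b
  obtain ⟨m, hmseg, hgm⟩ := exists_level (convex_segment c b) g (left_mem_segment ℝ c b)
    (right_mem_segment ℝ c b) hgc (hg3 b hb3).le
  obtain ⟨n, hnseg, hfn⟩ := exists_level (convex_segment c b) f (left_mem_segment ℝ c b)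
    (right_mem_segment ℝ c b) (hf1 c hc1).le (hf3 b hb3).le
  -- labelling on T ∩ {u ≤ f}
  obtain ⟨lR, hlR⟩ : ∃ l, IsLab U ok R (T ∩ {x | u ≤ f x}) l := by
    refine glue h (hT.inter cv1') g w (g := lm) (g' := l3)
      (hlm.mono (fun x hx => ⟨hx.1.1, hx.2⟩)) hl3 ?_
    intro i hi
    have hW : Convex ℝ ((T ∩ {x | u ≤ f x}) ∩ {x | g x = w}) := (hT.inter cv1').inter cv2e
    have hWcov : (T ∩ {x | u ≤ f x}) ∩ {x | g x = w} ⊆ ⋃ i, U i :=
      (inter_subset_left.trans inter_subset_left).trans cov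
    have hWm : IsLab U ok R ((T ∩ {x | u ≤ f x}) ∩ {x | g x = w}) lm :=
      hlm.mono fun x hx => ⟨hx.1.1, le_of_eq hx.2⟩
    have hW3 : IsLab U ok R ((T ∩ {x | u ≤ f x}) ∩ {x | g x = w}) l3 :=
      hl3.mono fun x hx => ⟨hx.1, le_of_eq hx.2.symm⟩
    rcases le_or_gt u (f m) with hum | hum
    · exact agree_special h hW.isPreconnected hWcov hWm hW3 hP2
        ⟨m, hcb hmseg, ⟨hcbT hmseg, hum⟩, hgm⟩ i hi
    · obtain ⟨z, hzi, ⟨hzT, hzf⟩, hzg⟩ := hi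
      obtain ⟨o, ⟨hoT, hog⟩, hof⟩ := exists_level (hT.inter cv2e) f ⟨hcbT hmseg, hgm⟩
        ⟨hzT, hzg⟩ hum.le hzf
      obtain ⟨k, hk⟩ := mem_iUnion.1 (cov hoT)
      -- lm and l1 agree at k
      have e1 : lm k = l1 k := by
        have hX : Convex ℝ ((T ∩ {x | f x ≤ u}) ∩ {x | g x ≤ w}) := (hT.inter cv1).inter cv2
        refine agree_special h hX.isPreconnected
          ((inter_subset_left.trans inter_subset_left).trans cov)
          (hlm.mono fun x hx => ⟨hx.1.1, hx.2⟩) (hl1.mono fun x hx => hx.1) hP1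
          ⟨a, ha1, ⟨haT, (hf1 a ha1).le⟩, (hg0 a ha0).le⟩ k ⟨o, hk, ⟨hoT, hof.le⟩, ?_⟩
        exact le_of_eq hog
      -- n lies beyond m
      have hgn : w ≤ g n := by
        obtain ⟨s, ⟨hs0, hs1'⟩, rfl⟩ := (segment_eq_image ℝ c b ▸ hmseg :
          m ∈ (fun θ : ℝ => (1 - θ) • c + θ • b) '' Icc (0 : ℝ) 1)
        obtain ⟨t, ⟨ht0, ht1⟩, rfl⟩ := (segment_eq_image ℝ c b ▸ hnseg :
          n ∈ (fun θ : ℝ => (1 - θ) • c + θ • b) '' Icc (0 : ℝ) 1)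
        simp only [map_add, map_smul, smul_eq_mul] at hgm hfn hum ⊢
        have hfc := hf1 c hc1
        have hfb := hf3 b hb3
        have hgb := hg3 b hb3
        have hst : s < t := by
          by_contra hcon
          push Not at hcon
          nlinarith
        nlinarith
      have e2 : l1 k = l3 k := by
        have hX : Convex ℝ ((T ∩ {x | f x = u}) ∩ {x | w ≤ g x}) := (hT.inter cv1e).inter cv2'
        refine agree_special h hX.isPreconnected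
          ((inter_subset_left.trans inter_subset_left).trans cov)
          (hl1.mono fun x hx => ⟨hx.1.1, le_of_eq hx.1.2⟩)
          (hl3.mono fun x hx => ⟨⟨hx.1.1, le_of_eq hx.1.2.symm⟩, hx.2⟩) hP2
          ⟨n, hcb hnseg, ⟨hcbT hnseg, hfn⟩, hgn⟩ k ⟨o, hk, ⟨hoT, hof⟩, ?_⟩
        exact le_of_eq hog.symm
      have hoW : o ∈ (T ∩ {x | u ≤ f x}) ∩ {x | g x = w} := ⟨⟨hoT, le_of_eq hof.symm⟩, hog⟩
      exact agree h hW.isPreconnected hWcov hWm hW3 ⟨o, hk, hoW⟩ (e1.trans e2) i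
        ⟨z, hzi, ⟨hzT, hzf⟩, hzg⟩
  -- final gluing
  refine glue h hT f u (g := l1) (g' := lR) hl1 hlR ?_
  intro i hi
  have hX : Convex ℝ (T ∩ {x | f x = u}) := hT.inter cv1e
  exact agree_special h hX.isPreconnected (inter_subset_left.trans cov)
    (hl1.mono fun x hx => ⟨hx.1, le_of_eq hx.2⟩)
    (hlR.mono fun x hx => ⟨hx.1, le_of_eq hx.2.symm⟩) hP2
    ⟨n, hcb hnseg, hcbT hnseg, hfn⟩ i hi

/-- **Labelling theorem for paths with three edges.** -/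
theorem path_labelling [Finite V] (h : LabSys U P ok R) {p0 p1 p2 p3 : V}
    (hP : ∀ p, P p → p = p0 ∨ p = p1 ∨ p = p2 ∨ p = p3) (hP1 : P p1) (hP2 : P p2)
    (hs1 : ∃ a₀, ok p1 a₀ ∧ ∀ p, P p → (U p ∩ U p1).Nonempty → ∃ b, ok p b ∧ R p p1 b a₀)
    (hs2 : ∃ a₀, ok p2 a₀ ∧ ∀ p, P p → (U p ∩ U p2).Nonempty → ∃ b, ok p b ∧ R p p2 b a₀)
    (h01 : (U p0 ∩ U p1).Nonempty) (h12 : (U p1 ∩ U p2).Nonempty) (h23 : (U p2 ∩ U p3).Nonempty)
    (h02 : Disjoint (U p0) (U p2)) (h13 : Disjoint (U p1) (U p3)) (h03 : Disjoint (U p0) (U p3))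
    (hU : Convex ℝ (⋃ i, U i)) (S : Set E) (hS : S.Finite) (hSU : S ⊆ ⋃ i, U i) :
    ∃ l, IsLab U ok R S l := by
  classical
  obtain ⟨a, ha0, ha1⟩ := h01
  obtain ⟨c, hc1, hc2⟩ := h12
  obtain ⟨b, hb2, hb3⟩ := h23
  set T : Set E := convexHull ℝ {a, c, b} with hTdef
  have hTc : IsCompact T := (Set.toFinite {a, c, b}).isCompact_convexHull ℝ
  have hT : Convex ℝ T := convex_convexHull ℝ _
  have haT : a ∈ T := subset_convexHull ℝ _ (by simp)
  have hcT : c ∈ T := subset_convexHull ℝ _ (by simp)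
  have hbT : b ∈ T := subset_convexHull ℝ _ (by simp)
  have covT : T ⊆ ⋃ i, U i := by
    apply convexHull_min _ hU
    rintro x (rfl | rfl | rfl)
    · exact mem_iUnion.2 ⟨p0, ha0⟩
    · exact mem_iUnion.2 ⟨p1, hc1⟩
    · exact mem_iUnion.2 ⟨p3, hb3⟩
  obtain ⟨f, u, hf1, hf3⟩ := geometric_hahn_banach_open_open (h.convex p1) (h.isOpen p1)
    (h.convex p3) (h.isOpen p3) h13
  obtain ⟨f', u', hf2', hf0'⟩ := geometric_hahn_banach_open_open (h.convex p2) (h.isOpen p2)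
    (h.convex p0) (h.isOpen p0) h02.symm
  obtain ⟨g, w, hg0, hg3⟩ := geometric_hahn_banach_open_open (h.convex p0) (h.isOpen p0)
    (h.convex p3) (h.isOpen p3) h03
  obtain ⟨lT, hlT⟩ : ∃ l, IsLab U ok R T l := by
    rcases le_or_gt (g c) w with hgc | hgc
    · exact path_case h hP hP1 hP2 hs1 hs2 ha0 ha1 hc1 hc2 hb2 hb3 hTc hT haT hcT hbT covT
        hf1 hf3 hg0 hg3 hgc
    · refine path_case h (p0 := p3) (p1 := p2) (p2 := p1) (p3 := p0) ?_ hP2 hP1 hs2 hs1 hb3 hb2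
        hc2 hc1 ha1 ha0 hTc hT hbT hcT haT covT (f := f') (u := u') (g := -g) (w := -w)
        hf2' hf0' ?_ ?_ ?_
      · intro p hp
        rcases hP p hp with hh | hh | hh | hh
        · exact Or.inr (Or.inr (Or.inr hh))
        · exact Or.inr (Or.inr (Or.inl hh))
        · exact Or.inr (Or.inl hh)
        · exact Or.inl hh
      · intro x hx
        simpa using hg3 x hx
      · intro x hx
        simpa using hg0 x hx
      · simpa using hgc.le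
  set C : Set E := convexHull ℝ ({a, c, b} ∪ S) with hC
  have hCc : IsCompact C := ((Set.toFinite {a, c, b}).union hS).isCompact_convexHull ℝ
  have hCcov : C ⊆ ⋃ i, U i := by
    apply convexHull_min _ hU
    rintro x (hx | hx)
    · exact covT (subset_convexHull ℝ _ hx)
    · exact hSU hx
  have hTC : T ⊆ C := convexHull_mono subset_union_left
  obtain ⟨l, hl⟩ := sweep h hTc hCc hT (convex_convexHull ℝ _) hTC ⟨a, haT⟩ hCcov (by
    rintro p hp -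
    rcases hP p hp with rfl | rfl | rfl | rfl
    · exact ⟨a, ha0, haT⟩
    · exact ⟨a, ha1, haT⟩
    · exact ⟨c, hc2, hcT⟩
    · exact ⟨b, hb3, hbT⟩) hlT
  exact ⟨l, hl.mono fun x hx => subset_convexHull ℝ _ (Or.inr hx)⟩

end Pool.Agent.CURep
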