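import Pool.Agent.Work.MP_0f1017_co.Defs
import Pool.Agent.Work.MP_0f1017_co.Path

/-!
The explicit complex with 11 vertices and 26 facets, and the proof that it is not convex union
representable.
-/

namespace Pool.Agent.CURep

open Set

/-- The facets of the example, as bit masks of subsets of `{0, ..., 10}`, in shelling order. -/
def masks : List ℕ := [456, 450, 396, 387, 780, 210, 808, 652, 147, 360, 354, 802, 216, 680, 184,
  1200, 275, 786, 788, 1696, 1169, 1570, 1297, 1300, 1076, 1062]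

/-- The example: the complex on `{0, ..., 10}` generated by the 26 facets. -/
def exDelta : Set (Finset (Fin 11)) := {σ | ∃ m ∈ masks, ∀ i ∈ σ, m.testBit i.val = true}

/-- Label relations of the example, as 9-bit masks. -/
def tab : List (List ℕ) := [[273, 1, 0, 0, 1, 0, 0, 1, 1, 0, 1],
  [1, 273, 1, 0, 1, 4, 1, 1, 1, 1, 4], [0, 1, 273, 1, 4, 4, 0, 2, 4, 4, 4],
  [0, 0, 1, 273, 2, 2, 2, 2, 4, 4, 0], [1, 1, 64, 8, 273, 273, 273, 273, 273, 273, 273],
  [0, 64, 64, 8, 273, 273, 84, 273, 98, 98, 273], [0, 1, 0, 8, 273, 84, 273, 273, 161, 0, 0],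
  [1, 1, 8, 8, 273, 273, 273, 273, 161, 98, 273], [1, 1, 64, 64, 273, 140, 161, 161, 273, 273, 273],
  [0, 1, 64, 64, 273, 140, 0, 140, 273, 273, 140], [1, 64, 64, 0, 273, 273, 0, 273, 273, 98, 273]]

def Rb (i j : Fin 11) (a b : Fin 3) : Bool :=
  ((tab.getD i.val []).getD j.val 0).testBit (3 * a.val + b.val)

def okb (i : Fin 11) (a : Fin 3) : Bool := decide (3 < i.val) || decide (a.val = 0)

lemma rb_refl : ∀ (i : Fin 11) (a : Fin 3), Rb i i a a = true := by decide +kernel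

lemma rb_eq : ∀ (i : Fin 11) (a b : Fin 3), Rb i i a b = true → a = b := by decide +kernel

lemma rb_symm : ∀ (i j : Fin 11) (a b : Fin 3), Rb i j a b = true → Rb j i b a = true := by
  decide +kernel

lemma rb_tri : ∀ m ∈ masks, ∀ i : Fin 11, m.testBit i.val = true → ∀ j : Fin 11,
    m.testBit j.val = true → ∀ k : Fin 11, m.testBit k.val = true → ∀ a b c : Fin 3,
    okb i a = true → okb j b = true → okb k c = true → Rb i k a c = true → Rb k j c b = true →
    Rb i j a b = true := by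
  decide +kernel

lemma rb_ex : ∀ m ∈ masks, ∀ i : Fin 11, m.testBit i.val = true → 3 < i.val → ∀ j : Fin 11,
    m.testBit j.val = true → ∀ b : Fin 3, okb j b = true →
    ∃ a : Fin 3, okb i a = true ∧ Rb i j a b = true := by
  decide +kernel

lemma rb_start : ∀ m ∈ masks, ∀ i : Fin 11, m.testBit i.val = true → i.val ≤ 3 → ∀ j : Fin 11,
    m.testBit j.val = true → j.val ≤ 3 → Rb i j 0 0 = true := by
  decide +kernel

lemma ok_one : ∀ (i : Fin 11) (a : Fin 3), i.val ≤ 3 → okb i a = true → a = 0 := by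
  decide +kernel

lemma contra : ∀ a : Fin 3, Rb 0 4 0 a = true → Rb 2 4 0 a = true → False := by
  decide +kernel

lemma no_common : ∀ m ∈ masks, ¬ (m.testBit 0 = true ∧ m.testBit 2 = true) ∧
    ¬ (m.testBit 1 = true ∧ m.testBit 3 = true) ∧ ¬ (m.testBit 0 = true ∧ m.testBit 3 = true) := by
  decide +kernel

theorem exDelta_not_cur : ¬ ConvexUnionRepresentable exDelta := by
  rintro ⟨d, U, hUo, hUc, hU, hN⟩
  -- translation between faces and nonempty intersections
  have face : ∀ σ : Finset (Fin 11), σ ≠ ∅ → (σ ∈ exDelta ↔ ∃ x, ∀ i ∈ σ, x ∈ U i) := by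
    intro σ hσ
    rw [hN]
    constructor
    · rintro ⟨x, -, hx⟩
      exact ⟨x, hx hσ⟩
    · rintro ⟨x, hx⟩
      exact ⟨x, fun h => absurd h hσ, fun _ => hx⟩
  have ofmeet : ∀ i j k : Fin 11, (U i ∩ U j ∩ U k).Nonempty →
      ∃ m ∈ masks, m.testBit i.val = true ∧ m.testBit j.val = true ∧ m.testBit k.val = true := by
    rintro i j k ⟨x, ⟨hi, hj⟩, hk⟩
    have hmem : ({i, j, k} : Finset (Fin 11)) ∈ exDelta := by
      rw [face _ (Finset.insert_ne_empty _ _)]
      refine ⟨x, fun l hl => ?_⟩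
      simp only [Finset.mem_insert, Finset.mem_singleton] at hl
      rcases hl with rfl | rfl | rfl <;> assumption
    obtain ⟨m, hm, hmem⟩ := hmem
    exact ⟨m, hm, hmem i (by simp), hmem j (by simp), hmem k (by simp)⟩
  have ofmeet2 : ∀ i j : Fin 11, (U i ∩ U j).Nonempty →
      ∃ m ∈ masks, m.testBit i.val = true ∧ m.testBit j.val = true := by
    rintro i j ⟨x, hi, hj⟩
    obtain ⟨m, hm, h1, h2, -⟩ := ofmeet i j j ⟨x, ⟨hi, hj⟩, hj⟩
    exact ⟨m, hm, h1, h2⟩
  have meet2 : ∀ i j : Fin 11, (∃ m ∈ masks, m.testBit i.val = true ∧ m.testBit j.val = true) →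
      (U i ∩ U j).Nonempty := by
    rintro i j ⟨m, hm, hi, hj⟩
    have hmem : ({i, j} : Finset (Fin 11)) ∈ exDelta := by
      refine ⟨m, hm, fun l hl => ?_⟩
      simp only [Finset.mem_insert, Finset.mem_singleton] at hl
      rcases hl with rfl | rfl <;> assumption
    rw [face _ (Finset.insert_ne_empty _ _)] at hmem
    obtain ⟨x, hx⟩ := hmem
    exact ⟨x, hx i (by simp), hx j (by simp)⟩
  have hsys : LabSys U (fun i : Fin 11 => i.val ≤ 3) (fun i (a : Fin 3) => okb i a = true)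
      (fun i j a b => Rb i j a b = true) := by
    refine ⟨hUo, hUc, rb_refl, rb_eq, rb_symm, ?_, ?_, ?_⟩
    · intro i j k a b c hne h1 h2 h3 h4 h5
      obtain ⟨m, hm, hi, hj, hk⟩ := ofmeet i j k hne
      exact rb_tri m hm i hi j hj k hk a b c h1 h2 h3 h4 h5
    · intro i j b hi hne hb
      obtain ⟨m, hm, hmi, hmj⟩ := ofmeet2 i j hne
      exact rb_ex m hm i hmi (by omega) j hmj b hb
    · intro p a a' hp ha ha'
      rw [ok_one p a hp ha, ok_one p a' hp ha']
  have hst : ∀ j : Fin 11, j.val ≤ 3 → ∃ a₀ : Fin 3, okb j a₀ = true ∧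
      ∀ p : Fin 11, p.val ≤ 3 → (U p ∩ U j).Nonempty →
        ∃ b : Fin 3, okb p b = true ∧ Rb p j b a₀ = true := by
    intro j hj
    refine ⟨0, by simp [okb], fun p hp hne => ⟨0, by simp [okb], ?_⟩⟩
    obtain ⟨m, hm, h1, h2⟩ := ofmeet2 p j hne
    exact rb_start m hm p h1 hp j h2 hj
  have hdisj : ∀ i j : Fin 11, (∀ m ∈ masks, ¬ (m.testBit i.val = true ∧ m.testBit j.val = true)) →
      Disjoint (U i) (U j) := by
    intro i j hno
    rw [Set.disjoint_iff_inter_eq_empty, ← Set.not_nonempty_iff_eq_empty]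
    intro hne
    obtain ⟨m, hm, h1, h2⟩ := ofmeet2 i j hne
    exact hno m hm ⟨h1, h2⟩
  obtain ⟨x, hx0, hx4⟩ := meet2 0 4 (by decide +kernel)
  obtain ⟨y, hy2, hy4⟩ := meet2 2 4 (by decide +kernel)
  obtain ⟨l, hl1, hl2⟩ := path_labelling hsys (p0 := 0) (p1 := 1) (p2 := 2) (p3 := 3)
    (by
      intro p hp
      have h3 : p.val ≤ 3 := hp
      rcases p with ⟨p, hp'⟩
      simp only at h3
      interval_cases p <;> simp)
    (show (1 : Fin 11).val ≤ 3 by decide) (show (2 : Fin 11).val ≤ 3 by decide)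
    (hst 1 (by decide)) (hst 2 (by decide))
    (meet2 0 1 (by decide +kernel)) (meet2 1 2 (by decide +kernel))
    (meet2 2 3 (by decide +kernel))
    (hdisj 0 2 fun m hm => (no_common m hm).1) (hdisj 1 3 fun m hm => (no_common m hm).2.1)
    (hdisj 0 3 fun m hm => (no_common m hm).2.2) hU {x, y} (Set.toFinite _)
    (by
      rintro z (rfl | rfl)
      · exact mem_iUnion.2 ⟨0, hx0⟩
      · exact mem_iUnion.2 ⟨2, hy2⟩)
  have h04 := hl2 0 4 ⟨x, ⟨hx0, hx4⟩, by simp⟩
  have h24 := hl2 2 4 ⟨y, ⟨hy2, hy4⟩, by simp⟩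
  have e0 : l 0 = 0 := ok_one 0 (l 0) (by decide) (hl1 0 ⟨x, hx0, by simp⟩)
  have e2 : l 2 = 0 := ok_one 2 (l 2) (by decide) (hl1 2 ⟨y, hy2, by simp⟩)
  simp only [e0] at h04
  simp only [e2] at h24
  exact contra (l 4) h04 h24

end Pool.Agent.CURep
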