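import Mathlib

/-!
Convex sweeping of labellings of nerves of families of convex open sets.
-/

namespace Pool.Agent.CURep

open Set Filter Topology

variable {E : Type*} [NormedAddCommGroup E] [NormedSpace ℝ E] {V L : Type*}

/-- A label system over the nerve of a family `U` of convex open sets. -/
structure LabSys (U : V → Set E) (P : V → Prop) (ok : V → L → Prop)
    (R : V → V → L → L → Prop) : Prop where
  isOpen : ∀ i, IsOpen (U i)
  convex : ∀ i, Convex ℝ (U i)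
  refl : ∀ i a, R i i a a
  eq_of : ∀ i a b, R i i a b → a = b
  symm : ∀ i j a b, R i j a b → R j i b a
  tri : ∀ i j k a b c, (U i ∩ U j ∩ U k).Nonempty → ok i a → ok j b → ok k c →
    R i k a c → R k j c b → R i j a b
  ex : ∀ i j b, ¬ P i → (U i ∩ U j).Nonempty → ok j b → ∃ a, ok i a ∧ R i j a b
  one : ∀ p a a', P p → ok p a → ok p a' → a = a'

/-- A labelling of the nerve of the traces of `U` on `Q`. -/
def IsLab (U : V → Set E) (ok : V → L → Prop) (R : V → V → L → L → Prop) (Q : Set E)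
    (g : V → L) : Prop :=
  (∀ i, (U i ∩ Q).Nonempty → ok i (g i)) ∧
    ∀ i j, (U i ∩ U j ∩ Q).Nonempty → R i j (g i) (g j)

lemma IsLab.mono {U : V → Set E} {ok : V → L → Prop} {R : V → V → L → L → Prop} {Q Q' : Set E}
    {g : V → L} (h : IsLab U ok R Q g) (hQ : Q' ⊆ Q) : IsLab U ok R Q' g :=
  ⟨fun i hi => h.1 i (hi.mono (inter_subset_inter_right _ hQ)),
    fun i j hij => h.2 i j (hij.mono (inter_subset_inter_right _ hQ))⟩

lemma half_open {A S O : Set E} (hAo : IsOpen A) (hA : Convex ℝ A) (hS : Convex ℝ S)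
    (hAS : (A ∩ S).Nonempty) {q : E} (hqA : q ∈ closure A) (hqS : q ∈ S) (hO : IsOpen O)
    (hqO : q ∈ O) : (A ∩ O ∩ S).Nonempty := by
  obtain ⟨a, haA, haS⟩ := hAS
  have hcont : Continuous (fun t : ℝ => (1 - t) • q + t • a) := by fun_prop
  have h0 : (fun t : ℝ => (1 - t) • q + t • a) 0 ∈ O := by simpa using hqO
  have hev : ∀ᶠ t in 𝓝 (0 : ℝ), (1 - t) • q + t • a ∈ O :=
    hcont.continuousAt.eventually (hO.mem_nhds h0)
  have hev' : ∀ᶠ t in 𝓝[>] (0 : ℝ), (1 - t) • q + t • a ∈ O := hev.filter_mono nhdsWithin_le_nhds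
  have hev2 : ∀ᶠ t in 𝓝[>] (0 : ℝ), t ∈ Ioo (0 : ℝ) 1 := Ioo_mem_nhdsGT one_pos
  obtain ⟨t, ht1, ht2⟩ := (hev'.and hev2).exists
  refine ⟨(1 - t) • q + t • a, ⟨?_, ht1⟩, ?_⟩
  · have := hA.combo_closure_interior_mem_interior hqA (by rwa [hAo.interior_eq])
      (a := 1 - t) (b := t) (by linarith [ht2.2]) ht2.1 (by ring)
    rwa [hAo.interior_eq] at this
  · exact hS hqS haS (by linarith [ht2.2]) ht2.1.le (by ring)

section step

variable {U : V → Set E} {P : V → Prop} {ok : V → L → Prop} {R : V → V → L → L → Prop}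

/-- The label of a new vertex is well defined. -/
lemma exists_label (h : LabSys U P ok R) {S : Set E} (hS : Convex ℝ S) (cov : S ⊆ ⋃ i, U i)
    {g : V → L} (hg : IsLab U ok R S g) {i : V} (hi : ¬ P i)
    (hne : (closure (U i) ∩ S).Nonempty) :
    ∃ a, ok i a ∧ ∀ q ∈ closure (U i) ∩ S, ∀ k, q ∈ U k → R i k a (g k) := by
  classical
  obtain ⟨q₀, hq₀, hq₀S⟩ := hne
  obtain ⟨k₀, hk₀⟩ := mem_iUnion.1 (cov hq₀S)
  have meet : ∀ q ∈ closure (U i), ∀ O : Set E, IsOpen O → q ∈ O → (U i ∩ O).Nonempty := by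
    intro q hq O hO hqO
    have := mem_closure_iff.1 hq O hO hqO
    rwa [inter_comm] at this
  obtain ⟨a, hoka, hRa⟩ := h.ex i k₀ (g k₀) hi (meet q₀ hq₀ _ (h.isOpen k₀) hk₀)
    (hg.1 k₀ ⟨q₀, hk₀, hq₀S⟩)
  refine ⟨a, hoka, ?_⟩
  have hpre : IsPreconnected (closure (U i) ∩ S) :=
    ((h.convex i).closure.inter hS).isPreconnected
  set u : Set E := ⋃ k ∈ {k : V | R i k a (g k)}, U k with hu
  set v : Set E := ⋃ k ∈ {k : V | ¬ R i k a (g k)}, U k with hv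
  have huo : IsOpen u := isOpen_biUnion fun k _ => h.isOpen k
  have hvo : IsOpen v := isOpen_biUnion fun k _ => h.isOpen k
  have hcov : closure (U i) ∩ S ⊆ u ∪ v := by
    rintro q ⟨_, hqS⟩
    obtain ⟨k, hk⟩ := mem_iUnion.1 (cov hqS)
    by_cases hR : R i k a (g k)
    · exact Or.inl (mem_biUnion (show k ∈ {k : V | R i k a (g k)} from hR) hk)
    · exact Or.inr (mem_biUnion (show k ∈ {k : V | ¬ R i k a (g k)} from hR) hk)
  have hun : ((closure (U i) ∩ S) ∩ u).Nonempty :=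
    ⟨q₀, ⟨hq₀, hq₀S⟩, mem_biUnion (show k₀ ∈ {k : V | R i k a (g k)} from hRa) hk₀⟩
  intro q hq k hk
  by_contra hR
  have hvn : ((closure (U i) ∩ S) ∩ v).Nonempty :=
    ⟨q, hq, mem_biUnion (show k ∈ {k : V | ¬ R i k a (g k)} from hR) hk⟩
  obtain ⟨z, ⟨hz1, hz2⟩, hzu, hzv⟩ := hpre u v huo hvo hcov hun hvn
  obtain ⟨k₁, hk₁R, hk₁⟩ := mem_iUnion₂.1 hzu
  obtain ⟨k₂, hk₂R, hk₂⟩ := mem_iUnion₂.1 hzv
  have hk₁R' : R i k₁ a (g k₁) := hk₁R
  have hk₂R' : ¬ R i k₂ a (g k₂) := hk₂R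
  apply hk₂R'
  have h12 : R k₁ k₂ (g k₁) (g k₂) := hg.2 k₁ k₂ ⟨z, ⟨hk₁, hk₂⟩, hz2⟩
  have hne3 : (U i ∩ U k₂ ∩ U k₁).Nonempty := by
    have := meet z hz1 (U k₂ ∩ U k₁) ((h.isOpen k₂).inter (h.isOpen k₁)) ⟨hk₂, hk₁⟩
    rwa [← inter_assoc] at this
  exact h.tri i k₂ k₁ a (g k₂) (g k₁) hne3 hoka (hg.1 k₂ ⟨z, hk₂, hz2⟩)
    (hg.1 k₁ ⟨z, hk₁, hz2⟩) hk₁R' h12

/-- One sweeping step. -/
lemma step (h : LabSys U P ok R) {S : Set E} (hS : Convex ℝ S) (cov : S ⊆ ⋃ i, U i)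
    {g : V → L} (hg : IsLab U ok R S g) {S' : Set E}
    (h1 : ∀ i j, (U i ∩ U j ∩ S').Nonempty → (closure (U i ∩ U j) ∩ S).Nonempty)
    (hP : ∀ p, P p → (U p ∩ S').Nonempty → (U p ∩ S).Nonempty) :
    ∃ g', IsLab U ok R S' g' := by
  classical
  -- choose labels
  have key : ∀ i, ∃ a : L, ((U i ∩ S').Nonempty → ok i a) ∧
      ((U i ∩ S').Nonempty → ∀ q ∈ closure (U i) ∩ S, ∀ k, q ∈ U k → R i k a (g k)) := by
    intro i
    by_cases hi' : (U i ∩ S').Nonempty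
    · by_cases hold : (U i ∩ S).Nonempty
      · refine ⟨g i, fun _ => hg.1 i hold, fun _ q hq k hk => ?_⟩
        exact hg.2 i k (half_open (h.isOpen i) (h.convex i) hS hold hq.1 hq.2 (h.isOpen k) hk)
      · have hnP : ¬ P i := fun hp => hold (hP i hp hi')
        have hne : (closure (U i) ∩ S).Nonempty := by
          have := h1 i i (by rwa [inter_self])
          rwa [inter_self] at this
        obtain ⟨a, ha1, ha2⟩ := exists_label h hS cov hg hnP hne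
        exact ⟨a, fun _ => ha1, fun _ => ha2⟩
    · exact ⟨g i, fun hh => absurd hh hi', fun hh => absurd hh hi'⟩
  choose g' hg1 hg2 using key
  refine ⟨g', fun i hi => hg1 i hi, fun i j hij => ?_⟩
  have hi : (U i ∩ S').Nonempty := hij.mono (inter_subset_inter_left _ inter_subset_left)
  have hj : (U j ∩ S').Nonempty := hij.mono (inter_subset_inter_left _ inter_subset_right)
  obtain ⟨q, hq, hqS⟩ := h1 i j hij
  obtain ⟨k, hk⟩ := mem_iUnion.1 (cov hqS)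
  have hqi : q ∈ closure (U i) := closure_mono inter_subset_left hq
  have hqj : q ∈ closure (U j) := closure_mono inter_subset_right hq
  have e1 := hg2 i hi q ⟨hqi, hqS⟩ k hk
  have e2 := hg2 j hj q ⟨hqj, hqS⟩ k hk
  have hne3 : (U i ∩ U j ∩ U k).Nonempty := by
    have := mem_closure_iff.1 hq (U k) (h.isOpen k) hk
    rwa [inter_comm] at this
  exact h.tri i j k _ _ _ hne3 (hg1 i hi) (hg1 j hj) (hg.1 k ⟨q, hk, hqS⟩) e1 (h.symm _ _ _ _ e2)

end step

/-- The interpolating family of convex sets. -/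
def sw (Q₀ Q : Set E) (t : ℝ) : Set E :=
  (fun p : E × E => (1 - t) • p.1 + t • p.2) '' (Q₀ ×ˢ Q)

lemma sw_zero {Q₀ Q : Set E} (hQ : Q.Nonempty) : sw Q₀ Q 0 = Q₀ := by
  ext z
  constructor
  · rintro ⟨⟨x, y⟩, ⟨hx, _⟩, rfl⟩
    simpa using hx
  · intro hz
    obtain ⟨y, hy⟩ := hQ
    exact ⟨(z, y), ⟨hz, hy⟩, by simp⟩

lemma sw_one {Q₀ Q : Set E} (hQ : Q₀.Nonempty) : sw Q₀ Q 1 = Q := by
  ext z
  constructor
  · rintro ⟨⟨x, y⟩, ⟨_, hy⟩, rfl⟩
    simpa using hy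
  · intro hz
    obtain ⟨y, hy⟩ := hQ
    exact ⟨(y, z), ⟨hy, hz⟩, by simp⟩

lemma sw_convex {Q₀ Q : Set E} (h₀ : Convex ℝ Q₀) (h : Convex ℝ Q) (t : ℝ) :
    Convex ℝ (sw Q₀ Q t) := by
  unfold sw
  have hl : IsLinearMap ℝ (fun p : E × E => (1 - t) • p.1 + t • p.2) := by
    constructor
    · intro p q; simp only [Prod.fst_add, Prod.snd_add, smul_add]; abel
    · intro c p; simp only [Prod.smul_fst, Prod.smul_snd, smul_add]
      rw [smul_comm (1 - t) c, smul_comm t c]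
  exact (h₀.prod h).is_linear_image hl

lemma sw_subset {Q₀ Q : Set E} (hsub : Q₀ ⊆ Q) (h : Convex ℝ Q) {t : ℝ} (h0 : 0 ≤ t)
    (h1 : t ≤ 1) : sw Q₀ Q t ⊆ Q := by
  rintro z ⟨⟨x, y⟩, ⟨hx, hy⟩, rfl⟩
  exact h (hsub hx) hy (by linarith) h0 (by ring)

lemma subset_sw {Q₀ Q : Set E} (hsub : Q₀ ⊆ Q) (t : ℝ) : Q₀ ⊆ sw Q₀ Q t := by
  intro x hx
  exact ⟨(x, x), ⟨hx, hsub hx⟩, by simp only; rw [← add_smul]; simp⟩

lemma sw_eventually_nonempty {Q₀ Q O : Set E} (hO : IsOpen O) {τ : ℝ}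
    (h : (O ∩ sw Q₀ Q τ).Nonempty) : ∀ᶠ t in 𝓝 τ, (O ∩ sw Q₀ Q t).Nonempty := by
  obtain ⟨z, hz, ⟨⟨x, y⟩, hxy, rfl⟩⟩ := h
  have hc : Continuous (fun t : ℝ => (1 - t) • x + t • y) := by fun_prop
  have : ∀ᶠ t in 𝓝 τ, (1 - t) • x + t • y ∈ O := hc.continuousAt.eventually (hO.mem_nhds hz)
  filter_upwards [this] with t ht
  exact ⟨_, ht, ⟨(x, y), hxy, rfl⟩⟩

lemma sw_eventually_closure {Q₀ Q O : Set E} (hQ₀ : IsCompact Q₀) (hQ : IsCompact Q) {τ : ℝ} :
    ∀ᶠ t in 𝓝 τ, (O ∩ sw Q₀ Q t).Nonempty → (closure O ∩ sw Q₀ Q τ).Nonempty := by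
  by_cases h : (closure O ∩ sw Q₀ Q τ).Nonempty
  · exact Eventually.of_forall fun _ _ => h
  · have hK : IsCompact (Q₀ ×ˢ Q) := hQ₀.prod hQ
    have hc : Continuous (fun p : ℝ × (E × E) => (1 - p.1) • p.2.1 + p.1 • p.2.2) := by fun_prop
    have hev : ∀ᶠ t in 𝓝 τ, ∀ p ∈ Q₀ ×ˢ Q, (1 - t) • p.1 + t • p.2 ∉ closure O := by
      apply hK.eventually_forall_of_forall_eventually
      intro p hp
      have hmem : (fun p : ℝ × (E × E) => (1 - p.1) • p.2.1 + p.1 • p.2.2) (τ, p) ∈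
          (closure O)ᶜ := by
        intro hcl
        exact h ⟨_, hcl, ⟨p, hp, rfl⟩⟩
      have := hc.continuousAt.eventually (isClosed_closure.isOpen_compl.mem_nhds hmem)
      exact this
    filter_upwards [hev] with t ht
    rintro ⟨z, hz, ⟨p, hp, rfl⟩⟩
    exact absurd (subset_closure hz) (ht p hp)

/-- **Sweeping.** A labelling on a compact convex set extends to any larger compact convex subset
of the union, provided no special vertex is new. -/
theorem sweep [Finite V] {U : V → Set E} {P : V → Prop} {ok : V → L → Prop}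
    {R : V → V → L → L → Prop} (h : LabSys U P ok R) {Q₀ Q : Set E} (hQ₀ : IsCompact Q₀)
    (hQ : IsCompact Q) (c₀ : Convex ℝ Q₀) (c : Convex ℝ Q) (hsub : Q₀ ⊆ Q) (hne : Q₀.Nonempty)
    (cov : Q ⊆ ⋃ i, U i) (hP : ∀ p, P p → (U p ∩ Q).Nonempty → (U p ∩ Q₀).Nonempty)
    {g₀ : V → L} (hg₀ : IsLab U ok R Q₀ g₀) : ∃ g, IsLab U ok R Q g := by
  set s : Set ℝ := {t | ∃ g, IsLab U ok R (sw Q₀ Q t) g} with hs
  have hmain : Icc (0 : ℝ) 1 ⊆ s := by
    apply IsClosed.Icc_subset_of_forall_mem_nhdsWithin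
    · -- closed
      apply IsClosed.inter _ isClosed_Icc
      rw [← isOpen_compl_iff, isOpen_iff_mem_nhds]
      intro τ hτ
      have e1 : ∀ᶠ t in 𝓝 τ, ∀ i, (U i ∩ sw Q₀ Q τ).Nonempty → (U i ∩ sw Q₀ Q t).Nonempty := by
        rw [eventually_all]
        intro i
        by_cases hi : (U i ∩ sw Q₀ Q τ).Nonempty
        · filter_upwards [sw_eventually_nonempty (h.isOpen i) hi] with t ht _ using ht
        · exact Eventually.of_forall fun _ hh => absurd hh hi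
      have e2 : ∀ᶠ t in 𝓝 τ, ∀ i j, (U i ∩ U j ∩ sw Q₀ Q τ).Nonempty →
          (U i ∩ U j ∩ sw Q₀ Q t).Nonempty := by
        rw [eventually_all]
        intro i
        rw [eventually_all]
        intro j
        by_cases hi : (U i ∩ U j ∩ sw Q₀ Q τ).Nonempty
        · filter_upwards [sw_eventually_nonempty ((h.isOpen i).inter (h.isOpen j)) hi]
            with t ht _ using ht
        · exact Eventually.of_forall fun _ hh => absurd hh hi
      filter_upwards [e1, e2] with t h1 h2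
      rintro ⟨g, hg⟩
      exact hτ ⟨g, fun i hi => hg.1 i (h1 i hi), fun i j hij => hg.2 i j (h2 i j hij)⟩
    · refine ⟨g₀, ?_⟩
      rw [sw_zero (hne.mono hsub)]
      exact hg₀
    · rintro τ ⟨⟨g, hg⟩, hτ0, hτ1⟩
      have e2 : ∀ᶠ t in 𝓝 τ, ∀ i j, (U i ∩ U j ∩ sw Q₀ Q t).Nonempty →
          (closure (U i ∩ U j) ∩ sw Q₀ Q τ).Nonempty := by
        rw [eventually_all]
        intro i
        rw [eventually_all]
        intro j
        exact sw_eventually_closure hQ₀ hQ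
      have e3 : ∀ᶠ t in 𝓝[>] τ, t ∈ Ioo τ 1 := Ioo_mem_nhdsGT hτ1
      filter_upwards [e2.filter_mono nhdsWithin_le_nhds, e3] with t ht ht3
      refine step h (sw_convex c₀ c τ) ((sw_subset hsub c hτ0 hτ1.le).trans cov) hg ht ?_
      intro p hp hpt
      have h1 : (U p ∩ Q).Nonempty := hpt.mono (inter_subset_inter_right _
        (sw_subset hsub c (by linarith [ht3.1]) ht3.2.le))
      exact (hP p hp h1).mono (inter_subset_inter_right _ (subset_sw hsub τ))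
  obtain ⟨g, hg⟩ := hmain (right_mem_Icc.2 zero_le_one)
  rw [sw_one hne] at hg
  exact ⟨g, hg⟩

end Pool.Agent.CURep
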